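import Pool.Agent.H601H.Ops
import Pool.Agent.H601R3.Walsh

/-!
The algebra: the closed span, in the bounded operators on `ℓ¹(I)`, `I` the finite subsets of `ℕ`,
of the rank one operators `φ ⊗ z`, where `φ` is a coordinate functional or one of the
Rademacher type functionals `rf k`; the product is reversed composition.
-/

set_option autoImplicit false
set_option maxSynthPendingDepth 3
set_option linter.unusedSectionVars false
set_option linter.deprecated false

namespace H601H
open Filter Topology

/-- the index set -/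
abbrev I : Type := Finset ℕ

/-- `ℓ¹(I)` -/
abbrev E1 : Type := lp (fun _ : I => ℂ) 1

/-- basis vectors -/
noncomputable def ek (l : I) : E1 := lp.single 1 l (1 : ℂ)

theorem ek_apply (l k : I) : (ek l : I → ℂ) k = if k = l then 1 else 0 := by
  unfold ek
  split_ifs with h
  · subst h; exact lp.single_apply_self (E := fun _ : I => ℂ) 1 k 1
  · exact lp.single_apply_ne (E := fun _ : I => ℂ) 1 l 1 h

theorem norm_ek (l : I) : ‖ek l‖ = 1 := by
  unfold ek
  rw [lp.norm_single (by norm_num)]
  simp

/-- coordinate functional -/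
noncomputable def cf (l : I) : E1 →L[ℂ] ℂ := lp.evalCLM ℂ (fun _ : I => ℂ) 1 l

theorem cf_apply (l : I) (x : E1) : cf l x = (x : I → ℂ) l := rfl

theorem hasSum_ek (x : E1) : HasSum (fun l => (x : I → ℂ) l • ek l) x := by
  have h := lp.hasSum_single (E := fun _ : I => ℂ) (p := 1) (by norm_num) x
  have e : (fun l => (x : I → ℂ) l • ek l) = fun l => lp.single 1 l ((x : I → ℂ) l) := by
    funext l
    unfold ek
    rw [← lp.single_smul]
    simp
  rw [e]; exact h

theorem hasSum_norm1 (x : E1) : HasSum (fun l => ‖(x : I → ℂ) l‖) ‖x‖ := by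
  have h := lp.hasSum_norm (E := fun _ : I => ℂ) (p := 1) (by norm_num) x
  simpa using h

/-- bound via basis -/
theorem opNorm_le_basis {F : Type*} [NormedAddCommGroup F] [NormedSpace ℂ F] (T : E1 →L[ℂ] F)
    {C : ℝ} (hC : 0 ≤ C) (h : ∀ l, ‖T (ek l)‖ ≤ C) : ‖T‖ ≤ C := by
  refine T.opNorm_le_bound hC fun x => ?_
  refine ((hasSum_ek x).mapL T).norm_le_of_bounded ((hasSum_norm1 x).mul_left C) fun l => ?_
  rw [map_smul, norm_smul, mul_comm]
  exact mul_le_mul_of_nonneg_right (h l) (norm_nonneg _)

theorem clm_ext_basis {F : Type*} [NormedAddCommGroup F] [NormedSpace ℂ F] {T S : E1 →L[ℂ] F}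
    (h : ∀ l, T (ek l) = S (ek l)) : T = S := by
  ext x
  refine HasSum.unique ((hasSum_ek x).mapL T) ?_
  have := (hasSum_ek x).mapL S
  simp only [map_smul, h] at this ⊢
  exact this

/-- the Rademacher sequences -/
noncomputable def rr (k : ℕ) (l : I) : ℂ := if k ∈ l then -1 else 1

theorem norm_rr (k : ℕ) (l : I) : ‖rr k l‖ = 1 := by
  unfold rr; split_ifs <;> simp

theorem rr_mul_self (k : ℕ) (l : I) : rr k l * rr k l = 1 := by
  unfold rr; split_ifs <;> simp

theorem summable_rr (k : ℕ) (x : E1) : Summable fun l => rr k l * (x : I → ℂ) l := by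
  refine Summable.of_norm_bounded (hasSum_norm1 x).summable fun l => ?_
  rw [norm_mul, norm_rr, one_mul]

/-- the Rademacher functionals -/
noncomputable def rf (k : ℕ) : E1 →L[ℂ] ℂ :=
  LinearMap.mkContinuous
    { toFun := fun x => ∑' l, rr k l * (x : I → ℂ) l
      map_add' := fun x y => by
        rw [← (summable_rr k x).tsum_add (summable_rr k y)]
        refine tsum_congr fun l => ?_
        rw [lp.coeFn_add, Pi.add_apply, mul_add]
      map_smul' := fun c x => by
        rw [RingHom.id_apply, smul_eq_mul, ← tsum_mul_left]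
        refine tsum_congr fun l => ?_
        rw [lp.coeFn_smul, Pi.smul_apply, smul_eq_mul]; ring }
    1 (fun x => by
      rw [one_mul]
      refine tsum_of_norm_bounded (hasSum_norm1 x) fun l => ?_
      rw [norm_mul, norm_rr, one_mul])

theorem rf_ek (k : ℕ) (l : I) : rf k (ek l) = rr k l := by
  show ∑' j, rr k j * (ek l : I → ℂ) j = _
  rw [tsum_eq_single l]
  · rw [ek_apply, if_pos rfl, mul_one]
  · intro j hj; rw [ek_apply, if_neg hj, mul_zero]

theorem cf_ek (i l : I) : cf i (ek l) = if i = l then 1 else 0 := ek_apply l i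

/-- the functionals -/
noncomputable def ph : I ⊕ ℕ → (E1 →L[ℂ] ℂ) := Sum.elim cf rf

theorem norm_ph_le (s : I ⊕ ℕ) : ‖ph s‖ ≤ 1 := by
  refine opNorm_le_basis _ zero_le_one fun l => ?_
  rcases s with i | k
  · show ‖cf i (ek l)‖ ≤ 1
    rw [cf_ek]; split_ifs <;> simp
  · show ‖rf k (ek l)‖ ≤ 1
    rw [rf_ek, norm_rr]

/-- the space of operators -/
noncomputable def AS : Submodule ℂ (E1 →L[ℂ] E1) :=
  (Submodule.span ℂ (Set.range fun p : (I ⊕ ℕ) × E1 => (ph p.1).smulRight p.2)).topologicalClosure

theorem AS_closed : IsClosed (AS : Set (E1 →L[ℂ] E1)) := Submodule.isClosed_topologicalClosure _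

theorem gen_mem (s : I ⊕ ℕ) (z : E1) : (ph s).smulRight z ∈ AS :=
  Submodule.le_topologicalClosure _ (Submodule.subset_span ⟨(s, z), rfl⟩)

theorem AS_comp {T : E1 →L[ℂ] E1} (hT : T ∈ AS) (S : E1 →L[ℂ] E1) : S.comp T ∈ AS := by
  have h : AS ≤ AS.comap (ContinuousLinearMap.compL ℂ E1 E1 E1 S).toLinearMap := by
    refine Submodule.topologicalClosure_minimal _ (Submodule.span_le.2 ?_) ?_
    · rintro _ ⟨⟨s, z⟩, rfl⟩
      show S.comp ((ph s).smulRight z) ∈ AS
      have : S.comp ((ph s).smulRight z) = (ph s).smulRight (S z) := by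
        ext x; simp
      rw [this]; exact gen_mem _ _
    · exact AS_closed.preimage (ContinuousLinearMap.compL ℂ E1 E1 E1 S).continuous
  exact h hT

/-- the algebra -/
def A1 : Type := ↥AS

noncomputable instance instA1G : NormedAddCommGroup A1 := inferInstanceAs (NormedAddCommGroup ↥AS)
noncomputable instance instA1S : NormedSpace ℂ A1 := inferInstanceAs (NormedSpace ℂ ↥AS)
instance : CompleteSpace A1 := AS_closed.completeSpace_coe

/-- the operator -/
def op (a : A1) : E1 →L[ℂ] E1 := (a : ↥AS).1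

/-- reversed composition -/
noncomputable instance : NonUnitalNormedRing A1 :=
  { instA1G with
    mul := fun a b => (⟨(op b).comp (op a), AS_comp (a : ↥AS).2 (op b)⟩ : ↥AS)
    left_distrib := fun a b c => Subtype.ext (by
      show (op (b + c)).comp (op a) = (op b).comp (op a) + (op c).comp (op a)
      exact ContinuousLinearMap.add_comp (op b) (op c) (op a))
    right_distrib := fun a b c => Subtype.ext (by
      show (op c).comp (op a + op b) = (op c).comp (op a) + (op c).comp (op b)
      exact ContinuousLinearMap.comp_add _ _ _)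
    zero_mul := fun a => Subtype.ext (by
      show (op a).comp (0 : E1 →L[ℂ] E1) = 0
      exact ContinuousLinearMap.comp_zero _)
    mul_zero := fun a => Subtype.ext (by
      show (0 : E1 →L[ℂ] E1).comp (op a) = 0
      exact ContinuousLinearMap.zero_comp _)
    mul_assoc := fun a b c => Subtype.ext rfl
    norm_mul_le := fun a b => by
      show ‖(op b).comp (op a)‖ ≤ ‖op a‖ * ‖op b‖
      rw [mul_comm]
      exact ContinuousLinearMap.opNorm_comp_le _ _ }

theorem op_mul (a b : A1) : op (a * b) = (op b).comp (op a) := rfl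
theorem norm_op (a : A1) : ‖op a‖ = ‖a‖ := rfl
theorem op_add (a b : A1) : op (a + b) = op a + op b := rfl
theorem op_inj {a b : A1} (h : op a = op b) : a = b := Subtype.ext h

noncomputable instance instA1S' : NormedSpace ℂ A1 := instA1S

instance : IsScalarTower ℂ A1 A1 where
  smul_assoc c a b := by
    apply op_inj
    show (op b).comp (c • op a) = c • (op b).comp (op a)
    exact ContinuousLinearMap.comp_smul _ _ _

instance : SMulCommClass ℂ A1 A1 where
  smul_comm c a b := by
    apply op_inj
    show c • (op b).comp (op a) = (c • op b).comp (op a)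
    exact (ContinuousLinearMap.smul_comp _ _ _).symm

/-- the inclusion -/
noncomputable def opL : A1 →L[ℂ] (E1 →L[ℂ] E1) := AS.subtypeL

theorem opL_apply (a : A1) : opL a = op a := rfl

/-- rank one elements -/
noncomputable def gen (s : I ⊕ ℕ) : E1 →L[ℂ] A1 :=
  LinearMap.mkContinuous
    { toFun := fun z => ((⟨(ph s).smulRight z, gen_mem s z⟩ : ↥AS) : A1)
      map_add' := fun z z' => Subtype.ext (by
        ext x
        show ((ph s x • (z + z') : E1) : I → ℂ) _ = ((ph s x • z + ph s x • z' : E1) : I → ℂ) _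
        rw [smul_add])
      map_smul' := fun c z => Subtype.ext (by
        ext x
        show ((ph s x • (c • z) : E1) : I → ℂ) _ = ((c • (ph s x • z) : E1) : I → ℂ) _
        rw [smul_comm]) }
    1 (fun z => by
      show ‖(ph s).smulRight z‖ ≤ 1 * ‖z‖
      rw [ContinuousLinearMap.norm_smulRight_apply]
      exact mul_le_mul_of_nonneg_right (norm_ph_le s) (norm_nonneg _))

theorem op_gen (s : I ⊕ ℕ) (z x : E1) : op (gen s z) x = ph s x • z := rfl

theorem gen_mul (s : I ⊕ ℕ) (z : E1) (a : A1) : gen s z * a = gen s (op a z) := by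
  apply op_inj
  ext x
  show ((op a (ph s x • z) : E1) : I → ℂ) _ = ((ph s x • op a z : E1) : I → ℂ) _
  rw [map_smul]

theorem A1.induction {p : A1 → Prop} (hc : IsClosed {a | p a}) (h0 : p 0)
    (hadd : ∀ a b, p a → p b → p (a + b)) (ht : ∀ s z, p (gen s z)) (a : A1) : p a := by
  have key : ∀ x ∈ Submodule.span ℂ (Set.range fun p : (I ⊕ ℕ) × E1 => (ph p.1).smulRight p.2),
      ∀ c : ℂ, ∀ h : x ∈ AS, p (c • (⟨x, h⟩ : ↥AS) : ↥AS) := by
    intro x hx
    induction hx using Submodule.span_induction with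
    | mem x hx =>
      obtain ⟨⟨s, z⟩, rfl⟩ := hx
      intro c h
      have : (c • (⟨(ph s).smulRight z, h⟩ : ↥AS) : ↥AS) = gen s (c • z) := by
        rw [map_smul]; rfl
      rw [this]; exact ht _ _
    | zero =>
      intro c h
      have : (c • (⟨0, h⟩ : ↥AS) : ↥AS) = (0 : A1) := by
        have h2 : (⟨0, h⟩ : ↥AS) = 0 := rfl
        rw [h2, smul_zero]; rfl
      rw [this]; exact h0
    | add x y hx hy ihx ihy =>
      intro c h
      have hx' : x ∈ AS := Submodule.le_topologicalClosure _ hx
      have hy' : y ∈ AS := Submodule.le_topologicalClosure _ hy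
      have := hadd _ _ (ihx c hx') (ihy c hy')
      have h2 : (c • (⟨x + y, h⟩ : ↥AS) : ↥AS) =
          (c • (⟨x, hx'⟩ : ↥AS) : ↥AS) + (c • (⟨y, hy'⟩ : ↥AS) : ↥AS) := by
        rw [← smul_add]; rfl
      rw [h2]; exact this
    | smul a x hx ih =>
      intro c h
      have hx' : x ∈ AS := Submodule.le_topologicalClosure _ hx
      have := ih (c * a) hx'
      have h2 : (c • (⟨a • x, h⟩ : ↥AS) : ↥AS) = ((c * a) • (⟨x, hx'⟩ : ↥AS) : ↥AS) := by
        rw [mul_smul]; rfl
      rw [h2]; exact this
  obtain ⟨x, hx⟩ := a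
  have hx' : x ∈ closure (Submodule.span ℂ
    (Set.range fun p : (I ⊕ ℕ) × E1 => (ph p.1).smulRight p.2) : Set (E1 →L[ℂ] E1)) := hx
  obtain ⟨s, hs, hlim⟩ := mem_closure_iff_seq_limit.1 hx'
  have hs' : ∀ n, s n ∈ AS := fun n => Submodule.le_topologicalClosure _ (hs n)
  have hlim' : Tendsto (fun n => ((⟨s n, hs' n⟩ : ↥AS) : A1)) atTop (𝓝 ((⟨x, hx⟩ : ↥AS) : A1)) := by
    rw [show (𝓝 ((⟨x, hx⟩ : ↥AS) : A1)) = 𝓝 (⟨x, hx⟩ : ↥AS) from rfl]
    exact tendsto_subtype_rng.2 hlim
  refine hc.mem_of_tendsto hlim' (Eventually.of_forall fun n => ?_)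
  have := key (s n) (hs n) 1 (hs' n)
  rw [one_smul] at this
  exact this

theorem E1.induction {p : E1 → Prop} (hc : IsClosed {a | p a}) (h0 : p 0)
    (hadd : ∀ a b, p a → p b → p (a + b)) (ht : ∀ (c : ℂ) l, p (c • ek l)) (x : E1) : p x := by
  have h := (hasSum_ek x)
  refine hc.mem_of_tendsto h (Eventually.of_forall fun s => ?_)
  show p (∑ l ∈ s, (x : I → ℂ) l • ek l)
  induction s using Finset.induction_on with
  | empty => simpa using h0
  | insert a s ha ih => rw [Finset.sum_insert ha]; exact hadd _ _ (ht _ _) ih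

end H601H
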