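import Pool.Agent.H601H.Alg

/-!
The diagonal in the algebra.
-/

set_option autoImplicit false
set_option maxSynthPendingDepth 3
set_option linter.unusedSectionVars false
set_option linter.deprecated false

namespace H601H
open Filter Topology H601R3

section avg
variable {A : Type} [NonUnitalNormedRing A] [NormedSpace ℂ A] [IsScalarTower ℂ A A]
  [SMulCommClass ℂ A A] [CompleteSpace A]

theorem norm_sum_tau_le {J : Type} [Fintype J] [DecidableEq J] (u v : J → A)
    (hu : ∀ ε : J → Bool, ‖∑ j, ((sg (ε j) : ℝ) : ℂ) • u j‖ ≤ 1)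
    (hv : ∀ ε : J → Bool, ‖∑ j, ((sg (ε j) : ℝ) : ℂ) • v j‖ ≤ 1) :
    ‖∑ j, tau A A (u j) (v j)‖ ≤ 1 := by
  have orth : ∀ j k : J, ∑ ε : J → Bool, ((sg (ε j) : ℝ) : ℂ) * ((sg (ε k) : ℝ) : ℂ) =
      if j = k then ((cn J : ℝ) : ℂ) else 0 := by
    intro j k
    have h := chi_orth (I := J) {j} {k}
    simp only [chi_singleton, Finset.singleton_inj] at h
    have h2 : (∑ ε : J → Bool, ((sg (ε j) : ℝ) : ℂ) * ((sg (ε k) : ℝ) : ℂ)) =
        ((∑ ε : J → Bool, sg (ε j) * sg (ε k) : ℝ) : ℂ) := by push_cast; rfl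
    rw [h2, h]
    split_ifs <;> simp
  have key : ∑ ε : J → Bool, tau A A (∑ j, ((sg (ε j) : ℝ) : ℂ) • u j)
      (∑ j, ((sg (ε j) : ℝ) : ℂ) • v j) = ((cn J : ℝ) : ℂ) • ∑ j, tau A A (u j) (v j) := by
    have h1 : ∀ ε : J → Bool, tau A A (∑ j, ((sg (ε j) : ℝ) : ℂ) • u j)
        (∑ j, ((sg (ε j) : ℝ) : ℂ) • v j) =
        ∑ j, ∑ k, (((sg (ε j) : ℝ) : ℂ) * ((sg (ε k) : ℝ) : ℂ)) • tau A A (u j) (v k) := by
      intro ε
      have e1 : tau A A (∑ j, ((sg (ε j) : ℝ) : ℂ) • u j) =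
          ∑ j, ((sg (ε j) : ℝ) : ℂ) • tau A A (u j) := by
        rw [map_sum]; simp_rw [map_smul]
      rw [e1, ContinuousLinearMap.sum_apply]
      refine Finset.sum_congr rfl fun j _ => ?_
      rw [ContinuousLinearMap.smul_apply, map_sum, Finset.smul_sum]
      refine Finset.sum_congr rfl fun k _ => ?_
      rw [map_smul, smul_smul]
    simp_rw [h1]
    rw [Finset.sum_comm, Finset.smul_sum]
    refine Finset.sum_congr rfl fun j _ => ?_
    rw [Finset.sum_comm]
    simp_rw [← Finset.sum_smul, orth, ite_smul, zero_smul]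
    rw [Finset.sum_ite_eq]
    simp
  have h2 : ‖∑ ε : J → Bool, tau A A (∑ j, ((sg (ε j) : ℝ) : ℂ) • u j)
      (∑ j, ((sg (ε j) : ℝ) : ℂ) • v j)‖ ≤ cn J := by
    refine (norm_sum_le _ _).trans ?_
    have : (cn J : ℝ) = ∑ _ε : J → Bool, (1 : ℝ) := by
      rw [Finset.sum_const, Finset.card_univ, Fintype.card_fun, Fintype.card_bool, nsmul_eq_mul,
        mul_one]
      unfold cn; push_cast; rfl
    rw [this]
    refine Finset.sum_le_sum fun ε _ => (norm_tau_le _ _).trans ?_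
    calc _ ≤ (1:ℝ) * 1 := mul_le_mul (hu ε) (hv ε) (norm_nonneg _) zero_le_one
      _ = 1 := one_mul 1
  rw [key, norm_smul, Complex.norm_real, Real.norm_eq_abs, abs_of_pos cn_pos] at h2
  have := (mul_le_iff_le_one_right (cn_pos (I := J))).1 h2
  exact this

end avg

/-- matrix units -/
noncomputable def ee (i j : I) : A1 := gen (Sum.inl i) (ek j)

theorem op_ee (i j : I) (x : E1) : op (ee i j) x = (x : I → ℂ) i • ek j := rfl

theorem op_ee_ek (i j l : I) : op (ee i j) (ek l) = if l = i then ek j else 0 := by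
  rw [op_ee, ek_apply]
  split_ifs with h1 h2 h2
  · rw [one_smul]
  · exact absurd h1.symm h2
  · exact absurd h2.symm h1
  · rw [zero_smul]

/-- the finite sets -/
def Kn (m : ℕ) : Finset I := (Finset.range m).powerset

theorem mem_Kn {m : ℕ} {i : I} : i ∈ Kn m ↔ i ⊆ Finset.range m := Finset.mem_powerset

theorem card_Kn (m : ℕ) : (Kn m).card = 2 ^ m := by
  rw [Kn, Finset.card_powerset, Finset.card_range]

theorem Kn_symm {m : ℕ} {i s : I} (hi : i ∈ Kn m) (hs : s ∈ Kn m) : symmDiff i s ∈ Kn m := by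
  rw [mem_Kn] at *
  exact (Finset.symmDiff_subset_union).trans (Finset.union_subset hi hs)

theorem Kn_mono : Monotone Kn := fun m n h => Finset.powerset_mono.2 (Finset.range_mono h)

theorem tendsto_Kn : Tendsto Kn atTop atTop := by
  refine Filter.tendsto_atTop_finset_of_monotone Kn_mono fun i => ?_
  refine ⟨i.sup id + 1, mem_Kn.2 fun x hx => Finset.mem_range.2 ?_⟩
  exact Nat.lt_succ_of_le (Finset.le_sup (f := id) hx)

theorem norm_sumee_le (K : Finset I) (c : I → ℂ) (hc : ∀ i, ‖c i‖ ≤ 1) (σ : I → I) :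
    ‖∑ i ∈ K, c i • ee i (σ i)‖ ≤ 1 := by
  rw [← norm_op]
  refine opNorm_le_basis _ zero_le_one fun l => ?_
  have h1 : op (∑ i ∈ K, c i • ee i (σ i)) (ek l) = ∑ i ∈ K, c i • op (ee i (σ i)) (ek l) := by
    have : op (∑ i ∈ K, c i • ee i (σ i)) = opL (∑ i ∈ K, c i • ee i (σ i)) := rfl
    rw [this, map_sum, ContinuousLinearMap.sum_apply]
    refine Finset.sum_congr rfl fun i _ => ?_
    rw [map_smul]; rfl
  rw [h1]
  simp_rw [op_ee_ek, smul_ite, smul_zero]
  rw [Finset.sum_ite_eq]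
  split_ifs
  · rw [norm_smul, norm_ek, mul_one]; exact hc l
  · rw [norm_zero]; exact zero_le_one

theorem norm_sg (b : Bool) : ‖((sg b : ℝ) : ℂ)‖ ≤ 1 := by
  rw [Complex.norm_real, Real.norm_eq_abs, abs_sg]

theorem norm_shift_le (m : ℕ) (s : I) (hs : s ∈ Kn m) :
    ‖∑ i ∈ Kn m, tau A1 A1 (ee i (symmDiff i s)) (ee (symmDiff i s) i)‖ ≤ 1 := by
  rw [← Finset.sum_coe_sort (Kn m) fun i => tau A1 A1 (ee i (symmDiff i s)) (ee (symmDiff i s) i)]
  have hsum : ∀ (f : I → A1) (ε : ↥(Kn m) → Bool),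
      ∑ j : ↥(Kn m), ((sg (ε j) : ℝ) : ℂ) • f j =
      ∑ i ∈ Kn m, (if h : i ∈ Kn m then ((sg (ε ⟨i, h⟩) : ℝ) : ℂ) else 0) • f i := by
    intro f ε
    rw [← Finset.sum_coe_sort (Kn m)]
    refine Finset.sum_congr rfl fun j _ => ?_
    rw [dif_pos j.2]
  refine norm_sum_tau_le (J := ↥(Kn m)) _ _ (fun ε => ?_) (fun ε => ?_)
  · rw [hsum (fun i => ee i (symmDiff i s)) ε]
    refine norm_sumee_le _ _ (fun i => ?_) _
    split_ifs
    · exact norm_sg _
    · rw [norm_zero]; exact zero_le_one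
  · rw [hsum (fun i => ee (symmDiff i s) i) ε]
    have h2 : ∑ i ∈ Kn m, (if h : i ∈ Kn m then ((sg (ε ⟨i, h⟩) : ℝ) : ℂ) else 0) •
        ee (symmDiff i s) i = ∑ i ∈ Kn m,
        (fun i => if h : symmDiff i s ∈ Kn m then ((sg (ε ⟨symmDiff i s, h⟩) : ℝ) : ℂ) else 0) i •
        ee i (symmDiff i s) := by
      refine Finset.sum_bij' (fun i _ => symmDiff i s) (fun i _ => symmDiff i s)
        (fun i hi => Kn_symm hi hs) (fun i hi => Kn_symm hi hs)
        (fun i _ => symmDiff_symmDiff_cancel_right _ _)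
        (fun i _ => symmDiff_symmDiff_cancel_right _ _) ?_
      intro i hi
      simp only [symmDiff_symmDiff_cancel_right]
    rw [h2]
    refine norm_sumee_le _ _ (fun i => ?_) _
    split_ifs
    · exact norm_sg _
    · rw [norm_zero]; exact zero_le_one

/-- the diagonal -/
noncomputable def dl (m : ℕ) : PT A1 A1 :=
  ((2 : ℂ) ^ m)⁻¹ • ∑ s ∈ Kn m, ∑ i ∈ Kn m,
    tau A1 A1 (ee i (symmDiff i s)) (ee (symmDiff i s) i)

theorem norm_dl_le (m : ℕ) : ‖dl m‖ ≤ 1 := by
  rw [dl, norm_smul, norm_inv, norm_pow, Complex.norm_ofNat]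
  rw [inv_mul_le_iff₀ (by positivity), mul_one]
  refine (norm_sum_le _ _).trans ?_
  refine (Finset.sum_le_sum fun s hs => norm_shift_le m s hs).trans ?_
  rw [Finset.sum_const, card_Kn, nsmul_eq_mul, mul_one]
  push_cast
  exact le_rfl

theorem dl_eq (m : ℕ) : dl m = ((2 : ℂ) ^ m)⁻¹ • ∑ i ∈ Kn m, ∑ j ∈ Kn m,
    tau A1 A1 (ee i j) (ee j i) := by
  rw [dl, Finset.sum_comm]
  congr 1
  refine Finset.sum_congr rfl fun i hi => ?_
  refine Finset.sum_bij' (fun s _ => symmDiff i s) (fun s _ => symmDiff i s)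
    (fun s hs => Kn_symm hi hs) (fun s hs => Kn_symm hi hs)
    (fun s _ => symmDiff_symmDiff_cancel_left _ _)
    (fun s _ => symmDiff_symmDiff_cancel_left _ _) (fun s _ => rfl)

theorem gen_mul_ee (s : I ⊕ ℕ) (k i j : I) :
    gen s (ek k) * ee i j = if k = i then gen s (ek j) else 0 := by
  rw [gen_mul, op_ee_ek]
  split_ifs
  · rfl
  · rw [map_zero]


/-- the projections -/
noncomputable def PP (m : ℕ) : A1 := ∑ i ∈ Kn m, ee i i

theorem op_sum {ι : Type} (s : Finset ι) (f : ι → A1) (x : E1) :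
    op (∑ i ∈ s, f i) x = ∑ i ∈ s, op (f i) x := by
  have : op (∑ i ∈ s, f i) = opL (∑ i ∈ s, f i) := rfl
  rw [this, map_sum, ContinuousLinearMap.sum_apply]
  rfl

theorem op_PP (m : ℕ) (x : E1) : op (PP m) x = ∑ i ∈ Kn m, (x : I → ℂ) i • ek i := op_sum _ _ _

theorem op_PP_ek (m : ℕ) (l : I) : op (PP m) (ek l) = if l ∈ Kn m then ek l else 0 := by
  rw [PP, op_sum]
  simp_rw [op_ee_ek]
  rw [Finset.sum_ite_eq]

theorem norm_PP_le (m : ℕ) : ‖PP m‖ ≤ 1 := by
  have := norm_sumee_le (Kn m) (fun _ => 1) (fun _ => by simp) id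
  unfold PP
  simpa using this

theorem tendsto_PP (x : E1) : Tendsto (fun m => op (PP m) x) atTop (𝓝 x) := by
  simp_rw [op_PP]
  exact (hasSum_ek x).comp tendsto_Kn

theorem pr_dl (m : ℕ) : pr (dl m) = PP m := by
  rw [dl_eq, map_smul, map_sum]
  simp_rw [map_sum, pr_tau]
  have h1 : ∀ i j : I, ee i j * ee j i = ee i i := by
    intro i j
    rw [show ee i j = gen (Sum.inl i) (ek j) from rfl, gen_mul_ee, if_pos rfl]; rfl
  simp_rw [h1]
  simp_rw [Finset.sum_const, card_Kn]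
  rw [← Finset.smul_sum, ← Nat.cast_smul_eq_nsmul ℂ, smul_smul]
  push_cast
  rw [inv_mul_cancel₀ (pow_ne_zero _ two_ne_zero), one_smul]
  rfl

theorem unit_dl (a : A1) : Tendsto (fun m => a * pr (dl m)) atTop (𝓝 a) := by
  simp_rw [pr_dl]
  have h0 : ∀ a : A1, Tendsto (fun m => ((ContinuousLinearMap.mul ℂ A1).flip (PP m) -
      ContinuousLinearMap.id ℂ A1) a) atTop (𝓝 0) := by
    refine A1.induction (closed_tendsto _ 2 fun m => ?_) (by simp)
      (fun a b ha hb => by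
        have := ha.add hb
        rw [add_zero] at this
        exact this.congr fun m => (map_add _ _ _).symm) ?_
    · refine (norm_sub_le _ _).trans ?_
      have e1 : ‖(ContinuousLinearMap.mul ℂ A1).flip (PP m)‖ ≤ 1 := by
        refine ContinuousLinearMap.opNorm_le_bound _ zero_le_one fun a => ?_
        show ‖a * PP m‖ ≤ 1 * ‖a‖
        refine (norm_mul_le _ _).trans ?_
        rw [mul_comm]
        exact mul_le_mul_of_nonneg_right (norm_PP_le m) (norm_nonneg _)
      linarith [e1, (ContinuousLinearMap.norm_id_le : ‖ContinuousLinearMap.id ℂ A1‖ ≤ 1)]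
    · intro s z
      have e : ∀ m, ((ContinuousLinearMap.mul ℂ A1).flip (PP m) -
          ContinuousLinearMap.id ℂ A1) (gen s z) = gen s (op (PP m) z - z) := by
        intro m
        rw [map_sub, ← gen_mul]; rfl
      simp_rw [e]
      have := ((gen s).continuous.tendsto _).comp ((tendsto_PP z).sub_const z)
      rw [sub_self, map_zero] at this
      exact this
  have h1 := (h0 a).add_const a
  rw [zero_add] at h1
  refine h1.congr fun m => ?_
  show a * PP m - a + a = a * PP m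
  abel

theorem mul_gen (a : A1) (s : I ⊕ ℕ) (z x : E1) : op (a * gen s z) x = ph s (op a x) • z := rfl

theorem ee_mul_gen (i j l : I) (s : I ⊕ ℕ) : ee i j * gen s (ek l) = ph s (ek j) • ee i l := by
  rw [show ee i j = gen (Sum.inl i) (ek j) from rfl, gen_mul, op_gen, map_smul]
  rfl

theorem comm_gen (s t : I ⊕ ℕ) (j l : I) :
    ∀ᶠ m in atTop, Mop (gen s (ek j)) (gen t (ek l)) (dl m) = 0 := by
  have h1 : ∀ᶠ m in atTop, j ∈ Kn m := by
    have := tendsto_Kn.eventually (Filter.eventually_ge_atTop {j})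
    filter_upwards [this] with m hm
    exact hm (Finset.mem_singleton_self j)
  have h2 : ∀ᶠ m in atTop, l ∈ Kn m := by
    have := tendsto_Kn.eventually (Filter.eventually_ge_atTop {l})
    filter_upwards [this] with m hm
    exact hm (Finset.mem_singleton_self l)
  filter_upwards [h1, h2] with m hj hl
  rw [dl_eq, map_smul, map_sum]
  simp_rw [map_sum, Mop_tau, Finset.sum_sub_distrib]
  have e1 : ∀ i j' : I, tau A1 A1 (gen s (ek j) * ee i j') (ee j' i * gen t (ek l)) =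
      if j = i then ph t (ek j) • tau A1 A1 (gen s (ek j')) (ee j' l) else 0 := by
    intro i j'
    rw [gen_mul_ee]
    split_ifs with h
    · subst h
      rw [ee_mul_gen, map_smul]
    · rw [map_zero]; rfl
  have e2 : ∀ i j' : I, tau A1 A1 (gen s (ek j) * gen t (ek l) * ee i j') (ee j' i) =
      if l = i then ph t (ek j) • tau A1 A1 (gen s (ek j')) (ee j' l) else 0 := by
    intro i j'
    have : gen s (ek j) * gen t (ek l) = ph t (ek j) • gen s (ek l) := by
      rw [gen_mul, op_gen, map_smul]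
    rw [this, smul_mul_assoc, gen_mul_ee]
    split_ifs with h
    · subst h
      rw [map_smul]; rfl
    · rw [smul_zero, map_zero]; rfl
  simp_rw [e1, e2]
  rw [Finset.sum_comm (γ := I)]
  rw [Finset.sum_comm (γ := I) (f := fun i j' => if l = i then ph t (ek j) •
    tau A1 A1 (gen s (ek j')) (ee j' l) else 0)]
  simp_rw [Finset.sum_ite_eq, if_pos hj, if_pos hl]
  rw [sub_self, smul_zero]

/-- flipped left multiplication -/
noncomputable def lmf : PT A1 A1 →L[ℂ] A1 →L[ℂ] PT A1 A1 :=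
  (lm : A1 →L[ℂ] PT A1 A1 →L[ℂ] PT A1 A1).flip

theorem norm_T_le (T : PT A1 A1 →L[ℂ] A1 →L[ℂ] PT A1 A1) (δ : PT A1 A1) (K : ℝ) (h : ‖δ‖ ≤ K) :
    ‖T δ‖ ≤ ‖T‖ * K := (T.le_opNorm δ).trans (mul_le_mul_of_nonneg_left h (norm_nonneg _))

theorem norm_T_le' (T : PT A1 A1 →L[ℂ] PT A1 A1) (δ : PT A1 A1) (K : ℝ) (h : ‖δ‖ ≤ K) :
    ‖T δ‖ ≤ ‖T‖ * K := (T.le_opNorm δ).trans (mul_le_mul_of_nonneg_left h (norm_nonneg _))

theorem comm_dl (a b : A1) : Tendsto (fun m => Mop a b (dl m)) atTop (𝓝 0) := by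
  -- bounded operators in each variable
  have hb : ∀ b : A1, ∃ T : ℕ → A1 →L[ℂ] PT A1 A1, (∃ K, ∀ m, ‖T m‖ ≤ K) ∧
      ∀ m a, T m a = Mop a b (dl m) := by
    intro b
    refine ⟨fun m => (lmf (tmap ((ContinuousLinearMap.mul ℂ A1).flip b) (dl m))) -
      (lmf (dl m)).comp ((ContinuousLinearMap.mul ℂ A1).flip b),
      ⟨‖lmf‖ *
        (‖(tmap ((ContinuousLinearMap.mul ℂ A1).flip b) : PT A1 A1 →L[ℂ] PT A1 A1)‖ * 1) +
        ‖lmf‖ * 1 *
        ‖(ContinuousLinearMap.mul ℂ A1).flip b‖, fun m => ?_⟩, fun m a => rfl⟩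
    refine (norm_sub_le _ _).trans (add_le_add ?_ ?_)
    · exact norm_T_le _ _ _ (norm_T_le' _ _ _ (norm_dl_le m))
    · exact (ContinuousLinearMap.opNorm_comp_le _ _).trans (mul_le_mul_of_nonneg_right
        (norm_T_le _ _ _ (norm_dl_le m)) (norm_nonneg _))
  have ha : ∀ a : A1, ∃ T : ℕ → A1 →L[ℂ] PT A1 A1, (∃ K, ∀ m, ‖T m‖ ≤ K) ∧
      ∀ m b, T m b = Mop a b (dl m) := by
    intro a
    refine ⟨fun m => (lm a).comp ((Rs ((ContinuousLinearMap.mul ℂ A1).flip)).flip (dl m)) -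
      (lmf (dl m)).comp (ContinuousLinearMap.mul ℂ A1 a),
      ⟨‖(lm a : PT A1 A1 →L[ℂ] PT A1 A1)‖ *
        (‖(Rs ((ContinuousLinearMap.mul ℂ A1).flip)).flip‖ * 1) +
        ‖lmf‖ * 1 *
        ‖(ContinuousLinearMap.mul ℂ A1) a‖, fun m => ?_⟩, fun m b => rfl⟩
    refine (norm_sub_le _ _).trans (add_le_add ?_ ?_)
    · exact (ContinuousLinearMap.opNorm_comp_le _ _).trans (mul_le_mul_of_nonneg_left
        (norm_T_le _ _ _ (norm_dl_le m)) (norm_nonneg _))
    · exact (ContinuousLinearMap.opNorm_comp_le _ _).trans (mul_le_mul_of_nonneg_right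
        (norm_T_le _ _ _ (norm_dl_le m)) (norm_nonneg _))
  have closedA : ∀ b : A1, IsClosed {a | Tendsto (fun m => Mop a b (dl m)) atTop (𝓝 0)} := by
    intro b
    obtain ⟨T, ⟨K, hK⟩, hT⟩ := hb b
    simp_rw [← hT]
    exact closed_tendsto T K hK
  have closedB : ∀ a : A1, IsClosed {b | Tendsto (fun m => Mop a b (dl m)) atTop (𝓝 0)} := by
    intro a
    obtain ⟨T, ⟨K, hK⟩, hT⟩ := ha a
    simp_rw [← hT]
    exact closed_tendsto T K hK
  have linA : ∀ (a a' b : A1) m, Mop (a + a') b (dl m) = Mop a b (dl m) + Mop a' b (dl m) := by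
    intro a a' b m
    obtain ⟨T, -, hT⟩ := hb b
    rw [← hT, ← hT, ← hT, map_add]
  have linB : ∀ (a b b' : A1) m, Mop a (b + b') (dl m) = Mop a b (dl m) + Mop a b' (dl m) := by
    intro a b b' m
    obtain ⟨T, -, hT⟩ := ha a
    rw [← hT, ← hT, ← hT, map_add]
  have smA : ∀ (c : ℂ) (a b : A1) m, Mop (c • a) b (dl m) = c • Mop a b (dl m) := by
    intro c a b m
    obtain ⟨T, -, hT⟩ := hb b
    rw [← hT, ← hT, map_smul]
  have smB : ∀ (c : ℂ) (a b : A1) m, Mop a (c • b) (dl m) = c • Mop a b (dl m) := by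
    intro c a b m
    obtain ⟨T, -, hT⟩ := ha a
    rw [← hT, ← hT, map_smul]
  have zA : ∀ (b : A1) m, Mop 0 b (dl m) = 0 := by
    intro b m
    obtain ⟨T, -, hT⟩ := hb b
    rw [← hT, map_zero]
  have zB : ∀ (a : A1) m, Mop a 0 (dl m) = 0 := by
    intro a m
    obtain ⟨T, -, hT⟩ := ha a
    rw [← hT, map_zero]
  refine A1.induction (p := fun b => Tendsto (fun m => Mop a b (dl m)) atTop (𝓝 0)) (closedB a)
    (by simp_rw [zB]; exact tendsto_const_nhds)
    (fun b b' h h' => by simp_rw [linB]; simpa using h.add h') (fun t w => ?_) b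
  refine A1.induction (p := fun a => Tendsto (fun m => Mop a (gen t w) (dl m)) atTop (𝓝 0))
    (closedA _) (by simp_rw [zA]; exact tendsto_const_nhds)
    (fun b b' h h' => by simp_rw [linA]; simpa using h.add h') (fun s z => ?_) a
  refine E1.induction (p := fun w => Tendsto (fun m => Mop (gen s z) (gen t w) (dl m)) atTop (𝓝 0))
    ((closedB (gen s z)).preimage (gen t).continuous)
    (by simp_rw [map_zero, zB]; exact tendsto_const_nhds)
    (fun b b' h h' => by simp_rw [map_add, linB]; simpa using h.add h') (fun c l => ?_) w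
  refine E1.induction (p := fun z => Tendsto (fun m => Mop (gen s z) (gen t (c • ek l)) (dl m)) atTop (𝓝 0))
    ((closedA _).preimage (gen s).continuous)
    (by simp_rw [map_zero, zA]; exact tendsto_const_nhds)
    (fun b b' h h' => by simp_rw [map_add, linA]; simpa using h.add h') (fun c' j => ?_) z
  simp_rw [map_smul, smA, smB]
  have := (comm_gen s t j l)
  refine tendsto_const_nhds.congr' ?_
  filter_upwards [this] with m hm
  rw [hm, smul_zero, smul_zero]

end H601H
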