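import Pool.Agent.H601H.Ops

/-!
Homotopy identities and their limits.
-/

set_option autoImplicit false
set_option maxSynthPendingDepth 3
set_option linter.unusedSectionVars false
set_option linter.deprecated false

namespace H601H
open Filter Topology

universe u v w

section
variable {A : Type} [NonUnitalNormedRing A] [NormedSpace ℂ A] [IsScalarTower ℂ A A]
  [SMulCommClass ℂ A A] [CompleteSpace A]
variable {Y : Type u} [NormedAddCommGroup Y] [NormedSpace ℂ Y] [CompleteSpace Y]

/-- The laws satisfied by the right action and the remaining faces. -/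
structure Lw (R : A →L[ℂ] Y →L[ℂ] Y) (G : PT A Y →L[ℂ] Y) : Prop where
  hR : ∀ a b y, R (a * b) y = R b (R a y)
  hG : ∀ b u, G (tmap (R b) u) = R b (G u)
  hGG : ∀ a b y, G (tau A Y a (G (tau A Y b y))) = - G (tau A Y (a * b) y)

variable {R : A →L[ℂ] Y →L[ℂ] Y} {G : PT A Y →L[ℂ] Y}

theorem Lw.hG' (h : Lw R G) (a b : A) (y : Y) : G (tau A Y a (R b y)) = R b (G (tau A Y a y)) := by
  rw [← h.hG, tmap_tau]

theorem Lw.step (h : Lw R G) : Lw (Rs R) (Gs G) where
  hR a b u := by
    have : Rs R (a * b) = (Rs R b).comp (Rs R a) := by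
      refine PT.ext_clm fun c y => ?_
      rw [ContinuousLinearMap.comp_apply, Rs_tau, Rs_tau, Rs_tau, h.hR]
    rw [this]; rfl
  hG b u := by
    have : (Gs G).comp (tmap (Rs R b)) = (Rs R b).comp (Gs G) := by
      refine ext2 fun c d y => ?_
      rw [ContinuousLinearMap.comp_apply, ContinuousLinearMap.comp_apply, tmap_tau, Rs_tau,
        Gs_tau_tau, Gs_tau_tau, map_sub, map_neg, Rs_tau, Rs_tau, h.hG']
    exact congrArg (fun k => k u) this
  hGG a b u := by
    have : (Gs G).comp ((tau A (PT A Y) a).comp ((Gs G).comp (tau A (PT A Y) b))) =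
        -((Gs G).comp (tau A (PT A Y) (a * b))) := by
      refine PT.ext_clm fun c y => ?_
      simp only [ContinuousLinearMap.comp_apply, neg_apply]
      rw [Gs_tau_tau, Gs_tau_tau, map_sub, map_neg, map_sub, map_neg, Gs_tau_tau, Gs_tau_tau,
        h.hGG, map_neg, mul_assoc]
      abel
    exact congrArg (fun k => k u) this

theorem dd_dd (h : Lw R G) (u : PT A (PT A Y)) : dd R G (dd (Rs R) (Gs G) u) = 0 := by
  have : (dd R G).comp (dd (Rs R) (Gs G)) = 0 := by
    refine ext2 fun a b y => ?_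
    rw [ContinuousLinearMap.comp_apply, dd_tau, Rs_tau, Gs_tau_tau, map_add, map_sub, map_neg,
      dd_tau, dd_tau, dd_tau, h.hR, h.hG', h.hGG]
    simp only [zero_apply]
    abel
  exact congrArg (fun k => k u) this

/-- error term of `h0` -/
noncomputable def Err (R : A →L[ℂ] Y →L[ℂ] Y) (G : PT A Y →L[ℂ] Y) (δ : PT A A) :
    PT A Y →L[ℂ] PT A Y :=
  (dd (Rs R) (Gs G)).comp (hz (Rs R) δ) + (hz R δ).comp (dd R G) - ContinuousLinearMap.id ℂ _

theorem Err_apply (δ : PT A A) (u : PT A Y) :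
    Err R G δ u = dd (Rs R) (Gs G) (hz (Rs R) δ u) + hz R δ (dd R G u) - u := rfl

theorem norm_Err_le {K : ℝ} (δ : PT A A) (hδ : ‖δ‖ ≤ K) :
    ‖Err R G δ‖ ≤ ‖dd (Rs R) (Gs G)‖ * (‖(hz (Rs R) : PT A A →L[ℂ] PT A Y →L[ℂ] _)‖ * K) +
      (‖hz R‖ * K) * ‖dd R G‖ + 1 := by
  have h1 : ‖hz (Rs R) δ‖ ≤ ‖(hz (Rs R) : PT A A →L[ℂ] PT A Y →L[ℂ] _)‖ * K :=
    ((hz (Rs R)).le_opNorm δ).trans (mul_le_mul_of_nonneg_left hδ (norm_nonneg _))
  have h2 : ‖hz R δ‖ ≤ ‖hz R‖ * K :=
    ((hz R).le_opNorm δ).trans (mul_le_mul_of_nonneg_left hδ (norm_nonneg _))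
  refine (norm_sub_le _ _).trans (add_le_add ((norm_add_le _ _).trans (add_le_add ?_ ?_))
    ContinuousLinearMap.norm_id_le)
  · exact (ContinuousLinearMap.opNorm_comp_le _ _).trans
      (mul_le_mul_of_nonneg_left h1 (norm_nonneg _))
  · exact (ContinuousLinearMap.opNorm_comp_le _ _).trans
      (mul_le_mul_of_nonneg_right h2 (norm_nonneg _))

theorem err_id (h : Lw R G) (a e : A) (y : Y) (δ : PT A A) :
    dd (Rs R) (Gs G) (hz (Rs R) δ (tau A Y a (R e y))) + hz R δ (dd R G (tau A Y a (R e y))) =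
      tau A Y a (R (e * pr δ) y) -
        lift (((tau A Y).flip).bilinearComp (R.flip y) (ContinuousLinearMap.id ℂ A)) (Mop e a δ) := by
  refine PT.induction (p := fun δ => dd (Rs R) (Gs G) (hz (Rs R) δ (tau A Y a (R e y))) +
      hz R δ (dd R G (tau A Y a (R e y))) = tau A Y a (R (e * pr δ) y) -
        lift (((tau A Y).flip).bilinearComp (R.flip y) (ContinuousLinearMap.id ℂ A)) (Mop e a δ))
    (isClosed_eq (by fun_prop) (by fun_prop)) ?_ ?_ ?_ δ
  · simp
  · intro u v hu hv
    simp only [map_add, add_apply, mul_add] at hu hv ⊢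
    calc _ = (((dd (Rs R) (Gs G)) (((hz (Rs R)) u) (((tau A Y) a) ((R e) y))) +
          (((hz R) u) ((dd R G) (((tau A Y) a) ((R e) y))))) +
          ((dd (Rs R) (Gs G)) (((hz (Rs R)) v) (((tau A Y) a) ((R e) y))) +
          (((hz R) v) ((dd R G) (((tau A Y) a) ((R e) y)))))) := by abel
      _ = _ := by rw [hu, hv]; abel
  · intro p q
    rw [hz_tau, hz_tau, Rs_tau, dd_tau, dd_tau, Rs_tau, Gs_tau_tau, Mop_tau, map_sub, lift_tau,
      lift_tau, pr_tau]
    simp only [ContinuousLinearMap.bilinearComp_apply, ContinuousLinearMap.flip_apply,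
      ContinuousLinearMap.id_apply]
    rw [map_add, map_add, h.hG' a p]
    simp only [h.hR]
    abel

/-- The properties of the algebra used for the vanishing of homology. -/
structure Good (A : Type) [NonUnitalNormedRing A] [NormedSpace ℂ A] [IsScalarTower ℂ A A]
    [SMulCommClass ℂ A A] [CompleteSpace A] where
  δ : ℕ → PT A A
  K : ℝ
  hK : ∀ m, ‖δ m‖ ≤ K
  unit : ∀ a, Tendsto (fun m => a * pr (δ m)) atTop (𝓝 a)
  comm : ∀ a b, Tendsto (fun m => Mop a b (δ m)) atTop (𝓝 0)
  S : ℕ → A →L[ℂ] A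
  KS : ℝ
  hS : ∀ n, ‖S n‖ ≤ KS
  S_lim : ∀ a, Tendsto (fun n => S n a) atTop (𝓝 a)
  f : ℕ → ℕ → A
  KF : ℕ → ℝ
  hf : ∀ n j, ‖f n j‖ ≤ KF n
  f_lim : ∀ n a, Tendsto (fun j => f n j * a) atTop (𝓝 (S n a))

variable (g : Good A)

/-- the elements on which `h0` is asymptotically a contraction -/
def Ess (g : Good A) (R : A →L[ℂ] Y →L[ℂ] Y) (G : PT A Y →L[ℂ] Y) (w : PT A Y) : Prop :=
  Tendsto (fun m => Err R G (g.δ m) w) atTop (𝓝 0)

theorem ess_closed : IsClosed {w | Ess g R G w} :=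
  closed_tendsto (fun m => Err R G (g.δ m)) _ fun m => norm_Err_le (g.δ m) (g.hK m)

theorem Ess.zero : Ess g R G 0 := by
  unfold Ess; simp

variable {g} in
theorem Ess.add {u v : PT A Y} (hu : Ess g R G u) (hv : Ess g R G v) : Ess g R G (u + v) := by
  unfold Ess at *
  simpa using hu.add hv

theorem ess_R (h : Lw R G) (e : A) (u : PT A Y) : Ess g R G (Rs R e u) := by
  refine PT.induction (p := fun u => Ess g R G (Rs R e u)) ((ess_closed g).preimage (Rs R e).continuous)
    (by rw [map_zero]; exact Ess.zero g) (fun u v hu hv => by rw [map_add]; exact hu.add hv) ?_ u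
  intro a y
  unfold Ess
  have h1 : ∀ m, Err R G (g.δ m) (Rs R e (tau A Y a y)) =
      (tau A Y a (R (e * pr (g.δ m)) y) - tau A Y a (R e y)) -
        lift (((tau A Y).flip).bilinearComp (R.flip y) (ContinuousLinearMap.id ℂ A))
          (Mop e a (g.δ m)) := by
    intro m
    rw [Rs_tau, Err_apply, err_id h]
    abel
  simp_rw [h1]
  have h2 : Tendsto (fun m => tau A Y a (R (e * pr (g.δ m)) y)) atTop (𝓝 (tau A Y a (R e y))) := by
    have hc : Continuous fun b : A => tau A Y a (R b y) := by fun_prop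
    exact (hc.tendsto e).comp (g.unit e)
  have h3 : Tendsto (fun m => lift (((tau A Y).flip).bilinearComp (R.flip y)
      (ContinuousLinearMap.id ℂ A)) (Mop e a (g.δ m))) atTop (𝓝 0) := by
    have := ((lift (((tau A Y).flip).bilinearComp (R.flip y)
      (ContinuousLinearMap.id ℂ A))).continuous.tendsto 0).comp (g.comm e a)
    rwa [map_zero] at this
  simpa using (h2.sub_const (tau A Y a (R e y))).sub h3

theorem ess_hz (h : Lw R G) (δ : PT A A) (a : A) (y : Y) : Ess g R G (hz R δ (R a y)) := by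
  refine PT.induction (p := fun δ => Ess g R G (hz R δ (R a y)))
    ((ess_closed g).preimage (by fun_prop))
    (by rw [map_zero]; exact Ess.zero g)
    (fun u v hu hv => by rw [map_add]; exact hu.add hv) ?_ δ
  intro p q
  have : hz R (tau A A p q) (R a y) = Rs R (a * p) (tau A Y q y) := by
    rw [hz_tau, Rs_tau, h.hR]
  rw [this]
  exact ess_R g h _ _

theorem ess_hz_D (h : Lw R G) (δ : PT A A) (z : PT A Y) : Ess g R G (hz R δ (lift R z)) := by
  refine PT.induction (p := fun z => Ess g R G (hz R δ (lift R z)))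
    ((ess_closed g).preimage (by fun_prop))
    (by rw [map_zero, map_zero]; exact Ess.zero g)
    (fun u v hu hv => by rw [map_add, map_add]; exact hu.add hv) ?_ z
  intro a y
  rw [lift_tau]
  exact ess_hz g h δ a y

theorem ho_Rs (δ : PT A A) (a : A) (t : PT A Y) :
    ho δ (Rs R a t) = Rs (Rs R) a (ho δ t) := by
  refine PT.induction (p := fun δ => ho δ (Rs R a t) = Rs (Rs R) a (ho δ t))
    (isClosed_eq (by fun_prop) (by fun_prop)) (by simp) (fun u v hu hv => by
      rw [map_add, add_apply, add_apply, map_add, hu, hv]) ?_ δ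
  intro p q
  have : (ho (tau A A p q)).comp (Rs R a) = (Rs (Rs R) a).comp (ho (tau A A p q)) := by
    refine PT.ext_clm fun b y => ?_
    rw [ContinuousLinearMap.comp_apply, ContinuousLinearMap.comp_apply, Rs_tau, ho_tau, ho_tau,
      Rs_tau, Rs_tau]
  exact congrArg (fun k => k t) this

theorem ess_ho_D (h : Lw R G) (δ : PT A A) (z : PT A (PT A Y)) :
    Ess g (Rs R) (Gs G) (ho δ (lift (Rs R) z)) := by
  refine PT.induction (p := fun z => Ess g (Rs R) (Gs G) (ho δ (lift (Rs R) z)))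
    ((ess_closed g).preimage (by fun_prop))
    (by rw [map_zero, map_zero]; exact Ess.zero g)
    (fun u v hu hv => by rw [map_add, map_add]; exact hu.add hv) ?_ z
  intro a t
  rw [lift_tau, ho_Rs]
  exact ess_R g h.step _ _

theorem ho_id (h : Lw R G) (δ : PT A A) (a b : A) (y : Y) :
    dd (Rs (Rs R)) (Gs (Gs G)) (ho δ (tau A (PT A Y) a (tau A Y b y))) +
      ho δ (dd (Rs R) (Gs G) (tau A (PT A Y) a (tau A Y b y))) -
      hz (Rs R) δ (lift (Rs R) (tau A (PT A Y) a (tau A Y b y))) -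
      ho δ (lift (Rs R) (tau A (PT A Y) a (tau A Y b y))) =
    - tau A (PT A Y) (a * pr δ) (tau A Y b y) +
      lift ((tau A (PT A Y)).bilinearComp (ContinuousLinearMap.id ℂ A) ((tau A Y).flip y))
        (Mop a b δ) := by
  refine PT.induction (p := fun δ => dd (Rs (Rs R)) (Gs (Gs G)) (ho δ (tau A (PT A Y) a (tau A Y b y))) +
      ho δ (dd (Rs R) (Gs G) (tau A (PT A Y) a (tau A Y b y))) -
      hz (Rs R) δ (lift (Rs R) (tau A (PT A Y) a (tau A Y b y))) -
      ho δ (lift (Rs R) (tau A (PT A Y) a (tau A Y b y))) =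
    - tau A (PT A Y) (a * pr δ) (tau A Y b y) +
      lift ((tau A (PT A Y)).bilinearComp (ContinuousLinearMap.id ℂ A) ((tau A Y).flip y))
        (Mop a b δ))
    (isClosed_eq (by fun_prop) (by fun_prop)) (by simp) ?_ ?_ δ
  · intro u v hu hv
    have e1 : ∀ (E : Type u) [AddCommGroup E] (a1 b1 c1 d1 a2 b2 c2 d2 : E),
        (a1 + a2) + (b1 + b2) - (c1 + c2) - (d1 + d2) =
          (a1 + b1 - c1 - d1) + (a2 + b2 - c2 - d2) := by
      intros; abel
    simp only [map_add, add_apply, mul_add, neg_add] at hu hv ⊢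
    rw [show ∀ x1 x2 x3 x4 : PT A (PT A Y), -(x1) + -(x2) + (x3 + x4) = (-x1 + x3) + (-x2 + x4) from
      fun _ _ _ _ => by abel, ← hu, ← hv]
    abel
  · intro p q
    rw [dd_tau, lift_tau, Rs_tau, Gs_tau_tau, ho_tau, dd_tau, Rs_tau, Gs_tau, lm_tau, Gs_tau_tau,
      Mop_tau]
    simp only [lift_tau, pr_tau, hz_tau, Rs_tau, ContinuousLinearMap.bilinearComp_apply,
      ContinuousLinearMap.flip_apply,
      ContinuousLinearMap.id_apply, map_sub, map_add, map_neg, ho_tau, h.hR, mul_assoc]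
    abel

theorem ho_base (δ : PT A A) (a : A) (y : Y) (h : Lw R G) :
    dd (Rs R) (Gs G) (ho δ (tau A Y a y)) - hz R δ (lift R (tau A Y a y)) +
      tmap G (ho δ (tau A Y a y)) = - tau A Y (a * pr δ) y := by
  refine PT.induction (p := fun δ => dd (Rs R) (Gs G) (ho δ (tau A Y a y)) -
      hz R δ (lift R (tau A Y a y)) +
      tmap G (ho δ (tau A Y a y)) = - tau A Y (a * pr δ) y)
    (isClosed_eq (by fun_prop) (by fun_prop)) (by simp) ?_ ?_ δ
  · intro u v hu hv
    simp only [map_add, add_apply, mul_add, neg_add] at hu hv ⊢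
    rw [← hu, ← hv]
    abel
  · intro p q
    rw [ho_tau, dd_tau, Rs_tau, Gs_tau_tau, lift_tau, hz_tau, tmap_tau, pr_tau, h.hR, mul_assoc]
    abel

end

end H601H
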