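import Pool.Agent.H601H.Alg2
import Pool.Agent.H601H.Homot

/-!
The algebra is good.
-/

set_option autoImplicit false
set_option maxSynthPendingDepth 3
set_option linter.unusedSectionVars false
set_option linter.deprecated false

namespace H601H
open Filter Topology

/-- the evaluation of operators at a vector -/
noncomputable def ev1 (x : E1) : A1 →L[ℂ] E1 := (ContinuousLinearMap.apply ℂ E1 x).comp opL

theorem ev1_apply (x : E1) (a : A1) : ev1 x a = op a x := rfl

theorem norm_ev1_le (x : E1) : ‖ev1 x‖ ≤ ‖x‖ := by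
  refine ContinuousLinearMap.opNorm_le_bound _ (norm_nonneg _) fun a => ?_
  rw [ev1_apply, mul_comm]
  exact (op a).le_opNorm x

theorem exists_lim (T : ℕ → A1 →L[ℂ] E1) (K : ℝ) (hK : ∀ j, ‖T j‖ ≤ K) (c : I ⊕ ℕ → ℂ)
    (h : ∀ s z, ∀ᶠ j in atTop, T j (gen s z) = c s • z) :
    ∃ Z : A1 →L[ℂ] E1, ∀ a, Tendsto (fun j => T j a) atTop (𝓝 (Z a)) := by
  have hK0 : 0 ≤ K := (norm_nonneg _).trans (hK 0)
  have hcau : ∀ a, CauchySeq fun j => T j a := by
    refine A1.induction ?_ ?_ ?_ ?_
    · refine isClosed_of_closure_subset fun u hu => ?_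
      show CauchySeq fun j => T j u
      rw [Metric.cauchySeq_iff']
      intro ε hε
      obtain ⟨v, hv, hvu⟩ := Metric.mem_closure_iff.1 hu (ε / (3 * (K + 1))) (by positivity)
      obtain ⟨N, hN⟩ := (Metric.cauchySeq_iff'.1 hv) (ε / 3) (by positivity)
      refine ⟨N, fun n hn => ?_⟩
      have h1 := hN n hn
      have h3 : ∀ n, ‖T n (u - v)‖ < ε / 3 := by
        intro n
        refine lt_of_le_of_lt (((T n).le_opNorm _).trans (mul_le_mul_of_nonneg_right (hK n)
          (norm_nonneg _))) ?_
        rw [dist_eq_norm] at hvu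
        have h4 : K * ‖u - v‖ ≤ (K + 1) * ‖u - v‖ := by nlinarith [norm_nonneg (u - v)]
        have h5 : (K + 1) * ‖u - v‖ < (K + 1) * (ε / (3 * (K + 1))) :=
          mul_lt_mul_of_pos_left hvu (by positivity)
        have h6 : (K + 1) * (ε / (3 * (K + 1))) = ε / 3 := by field_simp
        linarith
      rw [dist_eq_norm] at h1 ⊢
      have e : T n u - T N u = T n (u - v) - T N (u - v) + (T n v - T N v) := by
        rw [map_sub, map_sub]; abel
      rw [e]
      refine (norm_add_le _ _).trans_lt ?_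
      have := norm_sub_le (T n (u - v)) (T N (u - v))
      linarith [h3 n, h3 N]
    · simpa using cauchySeq_const (0 : E1)
    · intro a b ha hb
      have h2 : ((fun j => T j a) + fun j => T j b) = fun j => T j (a + b) := by
        funext j
        rw [map_add]; rfl
      show CauchySeq fun j => T j (a + b)
      rw [← h2]
      exact ha.add hb
    · intro s z
      have h1 : Tendsto (fun j => T j (gen s z)) atTop (𝓝 (c s • z)) := by
        refine tendsto_const_nhds.congr' ?_
        filter_upwards [h s z] with j hj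
        exact hj.symm
      exact h1.cauchySeq
  choose Z hZ using fun a => cauchySeq_tendsto_of_complete (hcau a)
  refine ⟨continuousLinearMapOfTendsto T (tendsto_pi_nhds.2 hZ), fun a => hZ a⟩

/-- approximants of the coefficient functionals -/
noncomputable def xx (i j : ℕ) : E1 := (1 / 2 : ℂ) • (ek {j} - ek {i, j})

theorem norm_xx_le (i j : ℕ) : ‖xx i j‖ ≤ 1 := by
  rw [xx, norm_smul]
  have := norm_sub_le (ek {j}) (ek {i, j})
  rw [norm_ek, norm_ek] at this
  have h2 : ‖(1 / 2 : ℂ)‖ = 1 / 2 := by norm_num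
  rw [h2]; linarith

/-- limit values -/
def vv (i : ℕ) : I ⊕ ℕ → ℂ := Sum.elim (fun _ => 0) (fun k => if k = i then 1 else 0)

theorem sup_lt {l : I} {j : ℕ} (h : l.sup id < j) : j ∉ l := fun hj =>
  absurd (Finset.le_sup (f := id) hj) (not_le.2 h)

theorem ph_xx (i : ℕ) (s : I ⊕ ℕ) : ∀ᶠ j in atTop, ph s (xx i j) = vv i s := by
  rcases s with l | k
  · filter_upwards [eventually_gt_atTop (l.sup id)] with j hj
    show cf l (xx i j) = 0
    have h1 := sup_lt hj
    rw [xx, map_smul, map_sub, cf_ek, cf_ek, if_neg, if_neg]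
    · simp
    · rintro rfl; exact h1 (by simp)
    · rintro rfl; exact h1 (by simp)
  · filter_upwards [eventually_gt_atTop i] with j hj
    show rf k (xx i j) = if k = i then 1 else 0
    rw [xx, map_smul, map_sub, rf_ek, rf_ek]
    unfold rr
    by_cases hk : k = i
    · subst hk
      have h2 : k ∉ ({j} : Finset ℕ) := by rw [Finset.mem_singleton]; omega
      have h3 : k ∈ ({k, j} : Finset ℕ) := by simp
      rw [if_neg h2, if_pos h3, if_pos rfl]
      norm_num
    · have h3 : (k ∈ ({i, j} : Finset ℕ)) ↔ k ∈ ({j} : Finset ℕ) := by simp [hk]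
      rw [if_neg hk]
      simp only [h3]
      simp

theorem exists_zc (i : ℕ) : ∃ Z : A1 →L[ℂ] E1,
    ∀ a, Tendsto (fun j => ev1 (xx i j) a) atTop (𝓝 (Z a)) :=
  exists_lim (fun j => ev1 (xx i j)) 1 (fun j => (norm_ev1_le _).trans (norm_xx_le i j)) (vv i)
    fun s z => by
      filter_upwards [ph_xx i s] with j hj
      rw [ev1_apply, op_gen, hj]

/-- the limit -/
noncomputable def zc (i : ℕ) : A1 →L[ℂ] E1 := (exists_zc i).choose

theorem zc_tendsto (i : ℕ) (a : A1) : Tendsto (fun j => op a (xx i j)) atTop (𝓝 (zc i a)) :=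
  (exists_zc i).choose_spec a

theorem zc_gen (i : ℕ) (s : I ⊕ ℕ) (z : E1) : zc i (gen s z) = vv i s • z := by
  refine tendsto_nhds_unique (zc_tendsto i (gen s z)) ?_
  refine tendsto_const_nhds.congr' ?_
  filter_upwards [ph_xx i s] with j hj
  rw [op_gen, hj]

/-- approximants for sign patterns -/
noncomputable def yy (n : ℕ) (s : I) (j : ℕ) : E1 :=
  (1 / 2 : ℂ) • (ek (insert j s) + ek (s ∪ Finset.Ico n (j + 1)))

theorem norm_yy_le (n : ℕ) (s : I) (j : ℕ) : ‖yy n s j‖ ≤ 1 := by
  rw [yy, norm_smul]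
  have := norm_add_le (ek (insert j s)) (ek (s ∪ Finset.Ico n (j + 1)))
  rw [norm_ek, norm_ek] at this
  have h2 : ‖(1 / 2 : ℂ)‖ = 1 / 2 := by norm_num
  rw [h2]; linarith

/-- limit values -/
noncomputable def wv (n : ℕ) (s : I) : I ⊕ ℕ → ℂ :=
  Sum.elim (fun _ => 0) (fun k => if k < n then rr k s else 0)

theorem ph_yy (n : ℕ) (s : I) (hs : s ⊆ Finset.range n) (t : I ⊕ ℕ) :
    ∀ᶠ j in atTop, ph t (yy n s j) = wv n s t := by
  rcases t with l | k
  · filter_upwards [eventually_gt_atTop (l.sup id), eventually_ge_atTop n] with j hj hn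
    show cf l (yy n s j) = 0
    have h1 := sup_lt hj
    rw [yy, map_smul, map_add, cf_ek, cf_ek, if_neg, if_neg]
    · simp
    · rintro rfl
      exact h1 (Finset.mem_union_right _ (Finset.mem_Ico.2 ⟨hn, by omega⟩))
    · rintro rfl; exact h1 (Finset.mem_insert_self _ _)
  · filter_upwards [eventually_gt_atTop k, eventually_ge_atTop n] with j hj hn
    show rf k (yy n s j) = if k < n then rr k s else 0
    rw [yy, map_smul, map_add, rf_ek, rf_ek]
    unfold rr
    by_cases hk : k < n
    · have h2 : (k ∈ insert j s) ↔ k ∈ s := by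
        rw [Finset.mem_insert]
        constructor
        · rintro (h | h)
          · omega
          · exact h
        · exact Or.inr
      have h3 : (k ∈ s ∪ Finset.Ico n (j + 1)) ↔ k ∈ s := by
        rw [Finset.mem_union, Finset.mem_Ico]
        constructor
        · rintro (h | h)
          · exact h
          · omega
        · exact Or.inl
      rw [if_pos hk]
      simp only [h2, h3]
      split_ifs <;> norm_num
    · have hks : k ∉ s := fun h => hk (Finset.mem_range.1 (hs h))
      have h2 : k ∉ insert j s := by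
        rw [Finset.mem_insert]
        rintro (h | h)
        · omega
        · exact hks h
      have h3 : k ∈ s ∪ Finset.Ico n (j + 1) :=
        Finset.mem_union_right _ (Finset.mem_Ico.2 ⟨not_lt.1 hk, by omega⟩)
      rw [if_neg hk, if_neg h2, if_pos h3]
      norm_num

theorem sum_zc_norm_le (n : ℕ) (s : I) (hs : s ⊆ Finset.range n) (a : A1) :
    ‖∑ i ∈ Finset.range n, rr i s • zc i a‖ ≤ ‖a‖ := by
  have h0 : ∀ a : A1, Tendsto (fun j => (ev1 (yy n s j) - ∑ i ∈ Finset.range n, rr i s • zc i) a)
      atTop (𝓝 0) := by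
    refine A1.induction (closed_tendsto _ (1 + ‖∑ i ∈ Finset.range n, rr i s • zc i‖) fun j => ?_)
      (by simp) (fun a b ha hb => by
        have := ha.add hb
        rw [add_zero] at this
        exact this.congr fun m => (map_add _ _ _).symm) ?_
    · exact (norm_sub_le _ _).trans (add_le_add ((norm_ev1_le _).trans (norm_yy_le n s j)) le_rfl)
    · intro t z
      refine tendsto_const_nhds.congr' ?_
      filter_upwards [ph_yy n s hs t] with j hj
      rw [sub_apply, ev1_apply, op_gen, hj, ContinuousLinearMap.sum_apply]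
      simp_rw [ContinuousLinearMap.smul_apply, zc_gen, smul_smul]
      rw [← Finset.sum_smul, ← sub_smul]
      have : wv n s t - ∑ i ∈ Finset.range n, rr i s * vv i t = 0 := by
        rcases t with l | k
        · show (0 : ℂ) - ∑ i ∈ Finset.range n, rr i s * 0 = 0
          simp
        · show (if k < n then rr k s else 0) - ∑ i ∈ Finset.range n, rr i s * (if k = i then 1 else 0) = 0
          simp_rw [mul_ite, mul_one, mul_zero]
          rw [Finset.sum_ite_eq]
          simp [Finset.mem_range]
      rw [this, zero_smul]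
  have h1 := (h0 a).add_const (∑ i ∈ Finset.range n, rr i s • zc i a)
  rw [zero_add] at h1
  have h2 : Tendsto (fun j => op a (yy n s j)) atTop (𝓝 (∑ i ∈ Finset.range n, rr i s • zc i a)) := by
    refine h1.congr fun j => ?_
    rw [sub_apply, ev1_apply, ContinuousLinearMap.sum_apply]
    simp only [ContinuousLinearMap.smul_apply]
    abel
  refine le_of_tendsto h2.norm (Eventually.of_forall fun j => ?_)
  refine ((op a).le_opNorm _).trans ?_
  rw [norm_op]
  exact mul_le_of_le_one_right (norm_nonneg _) (norm_yy_le n s j)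

/-- corrected rank one elements -/
noncomputable def Ga (i n : ℕ) : E1 →L[ℂ] A1 :=
  gen (Sum.inr i) - ∑ l ∈ Kn n, rr i l • gen (Sum.inl l)

theorem Ga_apply (i n : ℕ) (z : E1) : Ga i n z = gen (Sum.inr i) z -
    ∑ l ∈ Kn n, rr i l • gen (Sum.inl l) z := by
  rw [Ga, sub_apply, ContinuousLinearMap.sum_apply]
  rfl

theorem Ga_mul (i n : ℕ) (z : E1) (a : A1) : Ga i n z * a = Ga i n (op a z) := by
  rw [Ga_apply, Ga_apply, sub_mul, gen_mul, Finset.sum_mul]
  simp_rw [smul_mul_assoc, gen_mul]

theorem op_Ga_ek (i n : ℕ) (z : E1) (l : I) :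
    op (Ga i n z) (ek l) = (if l ∈ Kn n then (0 : ℂ) else rr i l) • z := by
  have h1 : op (Ga i n z) (ek l) = ev1 (ek l) (Ga i n z) := rfl
  rw [h1, Ga_apply, map_sub, map_sum]
  simp_rw [map_smul, ev1_apply, op_gen]
  have h2 : ∀ l', rr i l' • (ph (Sum.inl l') (ek l) • z) = if l = l' then rr i l' • z else 0 := by
    intro l'
    show rr i l' • (cf l' (ek l) • z) = _
    rw [cf_ek]
    by_cases h : l = l'
    · rw [if_pos h, if_pos h.symm, one_smul]
    · rw [if_neg h, if_neg (Ne.symm h), zero_smul, smul_zero]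
  simp_rw [h2]
  rw [Finset.sum_ite_eq]
  show rf i (ek l) • z - _ = _
  rw [rf_ek]
  split_ifs
  · rw [sub_self, zero_smul]
  · rw [sub_zero]

/-- the operators `S n` -/
noncomputable def Sn (n : ℕ) : A1 →L[ℂ] A1 :=
  ContinuousLinearMap.mul ℂ A1 (PP n) + ∑ i ∈ Finset.range n, (Ga i n).comp (zc i)

theorem Sn_apply (n : ℕ) (a : A1) : Sn n a = PP n * a + ∑ i ∈ Finset.range n, Ga i n (zc i a) := by
  rw [Sn, add_apply, ContinuousLinearMap.sum_apply]
  rfl

theorem op_Sn_ek (n : ℕ) (a : A1) (l : I) : op (Sn n a) (ek l) =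
    if l ∈ Kn n then op a (ek l) else ∑ i ∈ Finset.range n, rr i l • zc i a := by
  have h1 : op (Sn n a) (ek l) = ev1 (ek l) (Sn n a) := rfl
  rw [h1, Sn_apply, map_add, map_sum]
  simp_rw [ev1_apply, op_Ga_ek]
  rw [op_mul, ContinuousLinearMap.comp_apply, op_PP_ek]
  split_ifs
  · simp
  · rw [map_zero, zero_add]

theorem norm_Sn_le (n : ℕ) : ‖Sn n‖ ≤ 1 := by
  refine ContinuousLinearMap.opNorm_le_bound _ zero_le_one fun a => ?_
  rw [one_mul, ← norm_op]
  refine opNorm_le_basis _ (norm_nonneg _) fun l => ?_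
  rw [op_Sn_ek]
  split_ifs
  · refine ((op a).le_opNorm _).trans ?_
    rw [norm_ek, mul_one, norm_op]
  · have h1 : ∑ i ∈ Finset.range n, rr i l • zc i a =
        ∑ i ∈ Finset.range n, rr i (l ∩ Finset.range n) • zc i a := by
      refine Finset.sum_congr rfl fun i hi => ?_
      congr 1
      unfold rr
      have : i ∈ l ∩ Finset.range n ↔ i ∈ l := by
        rw [Finset.mem_inter]; exact ⟨fun h => h.1, fun h => ⟨h, hi⟩⟩
      simp only [this]
    rw [h1]
    exact sum_zc_norm_le n _ Finset.inter_subset_right a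

theorem Sn_gen (s : I ⊕ ℕ) (z : E1) : ∀ᶠ n in atTop, Sn n (gen s z) = gen s z := by
  have h1 : ∀ᶠ n in atTop, ∀ l ∉ Kn n, ∑ i ∈ Finset.range n, rr i l * vv i s = ph s (ek l) := by
    rcases s with l0 | k
    · have := tendsto_Kn.eventually (Filter.eventually_ge_atTop {l0})
      filter_upwards [this] with n hn l hl
      have hne : l0 ≠ l := by
        rintro rfl
        exact hl (hn (Finset.mem_singleton_self _))
      show ∑ i ∈ Finset.range n, rr i l * 0 = cf l0 (ek l)
      rw [cf_ek, if_neg hne]; simp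
    · filter_upwards [eventually_gt_atTop k] with n hn l hl
      show ∑ i ∈ Finset.range n, rr i l * (if k = i then 1 else 0) = rf k (ek l)
      simp_rw [mul_ite, mul_one, mul_zero]
      rw [Finset.sum_ite_eq, if_pos (Finset.mem_range.2 hn), rf_ek]
  filter_upwards [h1] with n hn
  apply op_inj
  refine clm_ext_basis fun l => ?_
  rw [op_Sn_ek]
  split_ifs with hl
  · rfl
  · simp_rw [zc_gen, smul_smul]
    rw [← Finset.sum_smul, hn l hl, op_gen]

theorem tendsto_Sn (a : A1) : Tendsto (fun n => Sn n a) atTop (𝓝 a) := by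
  have h0 : ∀ a : A1, Tendsto (fun n => (Sn n - ContinuousLinearMap.id ℂ A1) a) atTop (𝓝 0) := by
    refine A1.induction (closed_tendsto _ 2 fun n => ?_) (by simp)
      (fun a b ha hb => by
        have := ha.add hb
        rw [add_zero] at this
        exact this.congr fun m => (map_add _ _ _).symm) ?_
    · refine (norm_sub_le _ _).trans ?_
      linarith [norm_Sn_le n, (ContinuousLinearMap.norm_id_le : ‖ContinuousLinearMap.id ℂ A1‖ ≤ 1)]
    · intro s z
      refine tendsto_const_nhds.congr' ?_
      filter_upwards [Sn_gen s z] with n hn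
      rw [sub_apply, hn, ContinuousLinearMap.id_apply, sub_self]
  have h1 := (h0 a).add_const a
  rw [zero_add] at h1
  refine h1.congr fun n => ?_
  rw [sub_apply, ContinuousLinearMap.id_apply]
  abel

/-- the elements `f n j` -/
noncomputable def fn (n j : ℕ) : A1 := PP n + ∑ i ∈ Finset.range n, Ga i n (xx i j)

theorem fn_mul (n j : ℕ) (a : A1) : fn n j * a = PP n * a +
    ∑ i ∈ Finset.range n, Ga i n (op a (xx i j)) := by
  rw [fn, add_mul, Finset.sum_mul]
  simp_rw [Ga_mul]

/-- The algebra is good. -/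
noncomputable def goodA1 : Good A1 where
  δ := dl
  K := 1
  hK := norm_dl_le
  unit := unit_dl
  comm := comm_dl
  S := Sn
  KS := 1
  hS := norm_Sn_le
  S_lim := tendsto_Sn
  f := fn
  KF n := 1 + ∑ i ∈ Finset.range n, ‖Ga i n‖
  hf n j := by
    refine (norm_add_le _ _).trans (add_le_add (norm_PP_le n) ((norm_sum_le _ _).trans
      (Finset.sum_le_sum fun i _ => ?_)))
    exact ((Ga i n).le_opNorm _).trans (mul_le_of_le_one_right (norm_nonneg _) (norm_xx_le i j))
  f_lim n a := by
    simp_rw [fn_mul, Sn_apply]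
    refine tendsto_const_nhds.add (tendsto_finsetSum _ fun i _ => ?_)
    exact ((Ga i n).continuous.tendsto _).comp (zc_tendsto i a)

end H601H
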