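import Pool.Agent.H601H.Exact

/-!
Exactness of the Hochschild complex in degree one for a good algebra.
-/

set_option autoImplicit false
set_option maxSynthPendingDepth 3
set_option linter.unusedSectionVars false
set_option linter.deprecated false

namespace H601H
open Filter Topology

universe u v w

/-- A Banach bimodule over the Banach algebra `A`: bounded bilinear actions `l a x = a · x` and
`r a x = x · a`, associative and commuting. -/
structure Bimod (A : Type) [NonUnitalNormedRing A] [NormedSpace ℂ A]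
    (X : Type u) [NormedAddCommGroup X] [NormedSpace ℂ X] where
  l : A →L[ℂ] X →L[ℂ] X
  r : A →L[ℂ] X →L[ℂ] X
  l_mul : ∀ a b x, l (a * b) x = l a (l b x)
  r_mul : ∀ a b x, r (a * b) x = r b (r a x)
  l_r : ∀ a b x, r b (l a x) = l a (r b x)

section
variable {A : Type} [NonUnitalNormedRing A] [NormedSpace ℂ A] [IsScalarTower ℂ A A]
  [SMulCommClass ℂ A A] [CompleteSpace A]
variable {X : Type u} [NormedAddCommGroup X] [NormedSpace ℂ X] [CompleteSpace X]

/-- `a ⊗ x ↦ - a · x`. -/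
noncomputable def G0 (M : Bimod A X) : PT A X →L[ℂ] X := -(lift M.l)

@[simp] theorem G0_tau (M : Bimod A X) (a : A) (x : X) : G0 M (tau A X a x) = - M.l a x := by
  rw [G0, neg_apply, lift_tau]

theorem Bimod.lw (M : Bimod A X) : Lw M.r (G0 M) where
  hR := M.r_mul
  hG b u := by
    have : (G0 M).comp (tmap (M.r b)) = (M.r b).comp (G0 M) := by
      refine PT.ext_clm fun c x => ?_
      rw [ContinuousLinearMap.comp_apply, ContinuousLinearMap.comp_apply, tmap_tau, G0_tau, G0_tau,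
        map_neg, M.l_r]
    exact congrArg (fun k => k u) this
  hGG a b x := by
    rw [G0_tau, G0_tau, G0_tau, map_neg, M.l_mul]

/-- `(p ⊗ q, x) ↦ fp ⊗ q · x`. -/
noncomputable def Uo (l : A →L[ℂ] X →L[ℂ] X) (f : A) : PT A A →L[ℂ] X →L[ℂ] PT A X :=
  lift ((ContinuousLinearMap.compL ℂ X X (PT A X)).bilinearComp
    ((tau A X).comp (ContinuousLinearMap.mul ℂ A f)) l)

@[simp] theorem Uo_tau (l : A →L[ℂ] X →L[ℂ] X) (f p q : A) (x : X) :
    Uo l f (tau A A p q) x = tau A X (f * p) (l q x) := by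
  rw [Uo, lift_tau]; rfl

theorem base_id (M : Bimod A X) (δ : PT A A) (f a : A) (x : X) :
    -(tmap (G0 M) (ho δ (lm f (tau A X a x)))) + Uo M.l f δ (G0 M (tau A X a x)) =
      -(lift ((tau A X).bilinearComp (ContinuousLinearMap.id ℂ A) (M.l.flip x)) (Mop f a δ)) := by
  refine PT.induction (p := fun δ => -(tmap (G0 M) (ho δ (lm f (tau A X a x)))) +
      Uo M.l f δ (G0 M (tau A X a x)) =
      -(lift ((tau A X).bilinearComp (ContinuousLinearMap.id ℂ A) (M.l.flip x)) (Mop f a δ)))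
    (isClosed_eq (by fun_prop) (by fun_prop)) (by simp) ?_ ?_ δ
  · intro u v hu hv
    simp only [map_add, add_apply, neg_add] at hu hv ⊢
    rw [← hu, ← hv]
    abel
  · intro p q
    rw [lm_tau, ho_tau, tmap_tau, G0_tau, G0_tau, Uo_tau, Mop_tau]
    simp only [map_sub, lift_tau, ContinuousLinearMap.bilinearComp_apply,
      ContinuousLinearMap.id_apply, ContinuousLinearMap.flip_apply, map_neg, M.l_mul]
    abel

variable (g : Good A)

theorem tendsto_base (M : Bimod A X) (f : A) (z : PT A X) :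
    Tendsto (fun m => -(tmap (G0 M) (ho (g.δ m) (lm f z))) + Uo M.l f (g.δ m) (G0 M z))
      atTop (𝓝 0) := by
  have hpos : 0 ≤ g.K := (norm_nonneg _).trans (g.hK 0)
  refine PT.tendsto (fun m => -((tmap (G0 M)).comp ((ho (g.δ m)).comp (lm f))) +
    (Uo M.l f (g.δ m)).comp (G0 M))
    (‖(tmap (G0 M) : PT A (PT A X) →L[ℂ] PT A X)‖ * (‖(ho : PT A A →L[ℂ] PT A X →L[ℂ] _)‖ * g.K *
      ‖(lm f : PT A X →L[ℂ] PT A X)‖) + ‖Uo M.l f‖ * g.K * ‖G0 M‖) (fun m => ?_) (fun a x => ?_) z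
  · refine (norm_add_le _ _).trans (add_le_add ?_ ?_)
    · rw [norm_neg]
      refine (ContinuousLinearMap.opNorm_comp_le _ _).trans (mul_le_mul_of_nonneg_left ?_
        (norm_nonneg _))
      exact (ContinuousLinearMap.opNorm_comp_le _ _).trans (mul_le_mul_of_nonneg_right
        (bdd_of_clm (ho : PT A A →L[ℂ] PT A X →L[ℂ] _) g m) (norm_nonneg _))
    · exact (ContinuousLinearMap.opNorm_comp_le _ _).trans (mul_le_mul_of_nonneg_right
        (bdd_of_clm (Uo M.l f) g m) (norm_nonneg _))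
  · have h1 : ∀ m, (-((tmap (G0 M)).comp ((ho (g.δ m)).comp (lm f))) +
        (Uo M.l f (g.δ m)).comp (G0 M)) (tau A X a x) =
        -(lift ((tau A X).bilinearComp (ContinuousLinearMap.id ℂ A) (M.l.flip x))
          (Mop f a (g.δ m))) := fun m => base_id M (g.δ m) f a x
    simp_rw [h1]
    have := ((lift ((tau A X).bilinearComp (ContinuousLinearMap.id ℂ A)
      (M.l.flip x))).continuous.tendsto 0).comp (g.comm f a)
    rw [map_zero] at this
    simpa using this.neg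

theorem ess_Uo (M : Bimod A X) (f : A) (δ : PT A A) (z : PT A X) :
    Ess g M.r (G0 M) (Uo M.l f δ (lift M.r z)) := by
  refine PT.induction (p := fun z => Ess g M.r (G0 M) (Uo M.l f δ (lift M.r z)))
    ((ess_closed g).preimage (by fun_prop))
    (by rw [map_zero, map_zero]; exact Ess.zero g)
    (fun u v hu hv => by rw [map_add, map_add]; exact hu.add hv) ?_ z
  intro a x
  refine PT.induction (p := fun δ => Ess g M.r (G0 M) (Uo M.l f δ (lift M.r (tau A X a x))))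
    ((ess_closed g).preimage (by fun_prop))
    (by rw [map_zero]; exact Ess.zero g)
    (fun u v hu hv => by rw [map_add]; exact hu.add hv) ?_ δ
  intro p q
  have : Uo M.l f (tau A A p q) (lift M.r (tau A X a x)) =
      Rs M.r a (tau A X (f * p) (M.l q x)) := by
    rw [lift_tau, Uo_tau, Rs_tau, M.l_r]
  rw [this]
  exact ess_R g M.lw _ _

include g in
theorem exists_f (z : PT A X) {ε : ℝ} (hε : 0 < ε) : ∃ f : A, ‖z - lm f z‖ ≤ ε := by
  have h1 : Tendsto (fun n => (fmap (g.S n) - ContinuousLinearMap.id ℂ (PT A X) : PT A X →L[ℂ] PT A X) z) atTop (𝓝 0) := by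
    refine PT.tendsto _ (g.KS + 1) (fun n => ?_) (fun a x => ?_) z
    · exact (norm_sub_le _ _).trans (add_le_add ((norm_fmap_le _).trans (g.hS n))
        ContinuousLinearMap.norm_id_le)
    · have e : ∀ n, (fmap (g.S n) - ContinuousLinearMap.id ℂ (PT A X) : PT A X →L[ℂ] PT A X) (tau A X a x) =
          tau A X (g.S n a) x - tau A X a x := by
        intro n
        rw [sub_apply, fmap_tau]; rfl
      simp_rw [e]
      have hc : Continuous fun b : A => tau A X b x := by fun_prop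
      simpa using ((hc.tendsto a).comp (g.S_lim a)).sub_const (tau A X a x)
  obtain ⟨n, hn⟩ := exists_small h1 (half_pos hε)
  have h2 : Tendsto (fun j => (lm (g.f n j) - fmap (g.S n) : PT A X →L[ℂ] PT A X) z) atTop
      (𝓝 0) := by
    refine PT.tendsto _ (‖(lm : A →L[ℂ] PT A X →L[ℂ] PT A X)‖ * g.KF n +
      ‖(fmap (g.S n) : PT A X →L[ℂ] PT A X)‖) (fun j => ?_) (fun a x => ?_) z
    · exact (norm_sub_le _ _).trans (add_le_add ((lm.le_opNorm _).trans
        (mul_le_mul_of_nonneg_left (g.hf n j) (norm_nonneg _))) le_rfl)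
    · have e : ∀ j, (lm (g.f n j) - fmap (g.S n) : PT A X →L[ℂ] PT A X) (tau A X a x) =
          tau A X (g.f n j * a) x - tau A X (g.S n a) x := by
        intro j
        rw [sub_apply, fmap_tau, lm_tau]
      simp_rw [e]
      have hc : Continuous fun b : A => tau A X b x := by fun_prop
      simpa using ((hc.tendsto _).comp (g.f_lim n a)).sub_const (tau A X (g.S n a) x)
  obtain ⟨j, hj⟩ := exists_small h2 (half_pos hε)
  refine ⟨g.f n j, ?_⟩
  have e : z - lm (g.f n j) z = -((fmap (g.S n) - ContinuousLinearMap.id ℂ (PT A X) : PT A X →L[ℂ] PT A X) z) -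
      (lm (g.f n j) - fmap (g.S n) : PT A X →L[ℂ] PT A X) z := by
    rw [sub_apply, sub_apply, ContinuousLinearMap.id_apply]; abel
  rw [e]
  refine (norm_sub_le _ _).trans ?_
  rw [norm_neg]
  linarith

theorem tendsto_e1 (M : Bimod A X) (z : PT A X) :
    Tendsto (fun m => dd (Rs M.r) (Gs (G0 M)) (ho (g.δ m) z) - hz M.r (g.δ m) (lift M.r z) +
      tmap (G0 M) (ho (g.δ m) z) + z) atTop (𝓝 0) := by
  have hpos : 0 ≤ g.K := (norm_nonneg _).trans (g.hK 0)
  refine PT.tendsto (fun m => (dd (Rs M.r) (Gs (G0 M))).comp (ho (g.δ m)) -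
    (hz M.r (g.δ m)).comp (lift M.r) + (tmap (G0 M)).comp (ho (g.δ m)) +
    ContinuousLinearMap.id ℂ (PT A X))
    (‖dd (Rs M.r) (Gs (G0 M))‖ * (‖(ho : PT A A →L[ℂ] PT A X →L[ℂ] _)‖ * g.K) +
      ‖hz M.r‖ * g.K * ‖lift M.r‖ +
      ‖(tmap (G0 M) : PT A (PT A X) →L[ℂ] PT A X)‖ * (‖(ho : PT A A →L[ℂ] PT A X →L[ℂ] _)‖ * g.K)
      + 1) (fun m => ?_) (fun a x => ?_) z
  · have b1 := bdd_of_clm (ho : PT A A →L[ℂ] PT A X →L[ℂ] _) g m
    have b2 := bdd_of_clm (hz M.r) g m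
    refine (norm_add_le _ _).trans (add_le_add ((norm_add_le _ _).trans (add_le_add
      ((norm_sub_le _ _).trans (add_le_add ?_ ?_)) ?_)) ContinuousLinearMap.norm_id_le)
    · exact (ContinuousLinearMap.opNorm_comp_le _ _).trans
        (mul_le_mul_of_nonneg_left b1 (norm_nonneg _))
    · exact (ContinuousLinearMap.opNorm_comp_le _ _).trans
        (mul_le_mul_of_nonneg_right b2 (norm_nonneg _))
    · exact (ContinuousLinearMap.opNorm_comp_le _ _).trans
        (mul_le_mul_of_nonneg_left b1 (norm_nonneg _))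
  · have h1 : ∀ m, ((dd (Rs M.r) (Gs (G0 M))).comp (ho (g.δ m)) -
        (hz M.r (g.δ m)).comp (lift M.r) + (tmap (G0 M)).comp (ho (g.δ m)) +
        ContinuousLinearMap.id ℂ (PT A X)) (tau A X a x) =
        - tau A X (a * pr (g.δ m)) x + tau A X a x := fun m => by
      rw [← ho_base (g.δ m) a x M.lw]; rfl
    simp_rw [h1]
    have hc : Continuous fun b : A => tau A X b x := by fun_prop
    simpa using (((hc.tendsto a).comp (g.unit a)).neg).add_const (tau A X a x)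

include g in
theorem exact_base (M : Bimod A X) (z : PT A X) (hz0 : dd M.r (G0 M) z = 0) :
    ∃ w, dd (Rs M.r) (Gs (G0 M)) w = z := by
  refine exact_abs (dd M.r (G0 M)) (dd (Rs M.r) (Gs (G0 M)))
    (fun m => hz (Rs M.r) (g.δ m)) (fun m => hz M.r (g.δ m))
    (‖(ho : PT A A →L[ℂ] PT A X →L[ℂ] _)‖ * g.K)
    (‖hz M.r‖ * g.K * ‖lift M.r‖ + ‖(tmap (G0 M) : PT A (PT A X) →L[ℂ] PT A X)‖ *
      (‖(ho : PT A A →L[ℂ] PT A X →L[ℂ] _)‖ * g.K))
    (‖hz M.r‖ * g.K) (‖hz (Rs M.r)‖ * g.K)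
    (bdd_of_clm (hz (Rs M.r)) g) (bdd_of_clm (hz M.r) g)
    (dd_dd M.lw) ?_ z hz0
  intro z hz0 η hη
  obtain ⟨CE, hCE⟩ : ∃ CE, ∀ m, ‖Err M.r (G0 M) (g.δ m)‖ ≤ CE :=
    ⟨_, fun m => norm_Err_le (g.δ m) (g.hK m)⟩
  have hCE0 : 0 ≤ CE := (norm_nonneg _).trans (hCE 0)
  obtain ⟨qb, hqb0, hqb⟩ : ∃ qb, 0 ≤ qb ∧ ∀ m (u : PT A X), ‖tmap (G0 M) (ho (g.δ m) u)‖ ≤ qb * ‖u‖ := by
    have hpos : 0 ≤ g.K := (norm_nonneg _).trans (g.hK 0)
    refine ⟨‖(tmap (G0 M) : PT A (PT A X) →L[ℂ] PT A X)‖ *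
      (‖(ho : PT A A →L[ℂ] PT A X →L[ℂ] _)‖ * g.K), by positivity, fun m u => ?_⟩
    refine ((tmap (G0 M)).le_opNorm _).trans ?_
    rw [mul_assoc ‖(tmap (G0 M) : PT A (PT A X) →L[ℂ] PT A X)‖]
    exact mul_le_mul_of_nonneg_left (norm_app_le _ _ _ (g.hK m) _) (norm_nonneg _)
  obtain ⟨η1, hη1, hη1a, hη1b⟩ : ∃ η1 : ℝ, 0 < η1 ∧ η1 ≤ η ∧ η1 + CE * ((qb + 1) * η1) ≤ η := by
    refine ⟨η / (1 + CE * (qb + 1)), by positivity, div_le_self hη.le (by
      nlinarith [mul_nonneg hCE0 (by linarith : (0:ℝ) ≤ qb + 1)]), le_of_eq ?_⟩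
    field_simp
  obtain ⟨f, hf⟩ := exists_f g z hη1
  have ht := (tendsto_e1 g M z).norm.add (tendsto_base g M f z).norm
  rw [norm_zero, add_zero] at ht
  obtain ⟨m, hm⟩ := ((Metric.tendsto_atTop.1 ht) η1 hη1)
  have hm := hm m le_rfl
  rw [dist_zero_right, Real.norm_eq_abs, abs_of_nonneg (by positivity)] at hm
  have hm1 : ‖dd (Rs M.r) (Gs (G0 M)) (ho (g.δ m) z) - hz M.r (g.δ m) (lift M.r z) +
      tmap (G0 M) (ho (g.δ m) z) + z‖ ≤ η1 := by
    linarith [norm_nonneg (-(tmap (G0 M) (ho (g.δ m) (lm f z))) + Uo M.l f (g.δ m) (G0 M z))]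
  have hm2 : ‖-(tmap (G0 M) (ho (g.δ m) (lm f z))) + Uo M.l f (g.δ m) (G0 M z)‖ ≤ η1 := by
    linarith [norm_nonneg (dd (Rs M.r) (Gs (G0 M)) (ho (g.δ m) z) -
      hz M.r (g.δ m) (lift M.r z) + tmap (G0 M) (ho (g.δ m) z) + z)]
  have hess : Ess g M.r (G0 M) (hz M.r (g.δ m) (lift M.r z) + Uo M.l f (g.δ m) (lift M.r z)) :=
    (ess_hz_D g M.lw _ _).add (ess_Uo g M f _ _)
  obtain ⟨m', hm'⟩ := exists_small hess hη1
  refine ⟨hz M.r (g.δ m) (lift M.r z) - tmap (G0 M) (ho (g.δ m) z), ho (g.δ m) z, m',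
    norm_app_le _ _ _ (g.hK m) _, ?_, ?_, ?_⟩
  · refine (norm_sub_le _ _).trans ?_
    rw [add_mul]
    refine add_le_add (norm_app_le' _ _ _ _ (g.hK m) _) ?_
    refine ((tmap (G0 M)).le_opNorm _).trans ?_
    rw [mul_assoc ‖(tmap (G0 M) : PT A (PT A X) →L[ℂ] PT A X)‖]
    exact mul_le_mul_of_nonneg_left (norm_app_le _ _ _ (g.hK m) _) (norm_nonneg _)
  · refine le_trans (le_of_eq ?_) (hm1.trans hη1a)
    congr 1
    abel
  · have hlift : lift M.r z = - G0 M z := by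
      rw [dd_apply] at hz0
      exact eq_neg_of_add_eq_zero_left hz0
    have e0 : hz M.r (g.δ m) (lift M.r z) - tmap (G0 M) (ho (g.δ m) z) =
        (hz M.r (g.δ m) (lift M.r z) + Uo M.l f (g.δ m) (lift M.r z)) +
        ((-(tmap (G0 M) (ho (g.δ m) (lm f z))) + Uo M.l f (g.δ m) (G0 M z)) -
          tmap (G0 M) (ho (g.δ m) (z - lm f z))) := by
      have e1 : Uo M.l f (g.δ m) (lift M.r z) = - Uo M.l f (g.δ m) (G0 M z) := by
        rw [hlift, map_neg]
      rw [e1, map_sub, map_sub]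
      abel
    have e2 : ‖(-(tmap (G0 M) (ho (g.δ m) (lm f z))) + Uo M.l f (g.δ m) (G0 M z)) -
          tmap (G0 M) (ho (g.δ m) (z - lm f z))‖ ≤ (qb + 1) * η1 := by
      refine (norm_sub_le _ _).trans ?_
      have := (hqb m (z - lm f z)).trans (mul_le_mul_of_nonneg_left hf hqb0)
      linarith
    rw [← Err_apply, e0, map_add]
    refine (norm_add_le _ _).trans ((add_le_add hm' ?_).trans hη1b)
    exact ((Err M.r (G0 M) (g.δ m')).le_opNorm _).trans
      (mul_le_mul (hCE m') e2 (norm_nonneg _) hCE0)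

end

end H601H
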