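import Pool.Agent.H601H.Alg3
import Pool.Agent.H601H.Base
import Pool.Agent.H601R3.Step

/-!
The algebra is not amenable: a bimodule with non-closed range of the first differential.
-/

set_option autoImplicit false
set_option maxSynthPendingDepth 3
set_option linter.unusedSectionVars false
set_option linter.deprecated false

namespace H601H
open Filter Topology H601R3

theorem closed_range_bound {U V : Type} [NormedAddCommGroup U] [NormedSpace ℂ U] [CompleteSpace U]
    [NormedAddCommGroup V] [NormedSpace ℂ V] [CompleteSpace V] (D : U →L[ℂ] V)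
    (hD : IsClosed (Set.range D)) :
    ∃ C > 0, ∀ u0, ∃ u, D u = D u0 ∧ ‖u‖ ≤ C * ‖D u0‖ := by
  let S : Submodule ℂ V := LinearMap.range (D : U →ₗ[ℂ] V)
  have hS : IsClosed (S : Set V) := by
    have : (S : Set V) = Set.range D := rfl
    rw [this]; exact hD
  haveI : CompleteSpace S := hS.completeSpace_coe
  let D' : U →L[ℂ] S := D.codRestrict S (fun x => ⟨x, rfl⟩)
  have hsurj : Function.Surjective D' := by
    rintro ⟨y, u, hu⟩
    exact ⟨u, Subtype.ext hu⟩
  obtain ⟨C, hC, h⟩ := D'.exists_preimage_norm_le hsurj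
  refine ⟨C, hC, fun u0 => ?_⟩
  obtain ⟨u, hu, hu2⟩ := h (D' u0)
  exact ⟨u, congrArg Subtype.val hu, hu2⟩

/-- signed sums -/
noncomputable def ssum {N : ℕ} (v : Fin N → E1) (ε : Fin N → Bool) : E1 :=
  ∑ i, ((sg (ε i) : ℝ) : ℂ) • v i

theorem ssum_apply {N : ℕ} (v : Fin N → E1) (ε : Fin N → Bool) (l : I) :
    (ssum v ε : I → ℂ) l = lev (fun i => (v i : I → ℂ) l) ε := by
  have h1 : (ssum v ε : I → ℂ) l = cf l (ssum v ε) := rfl
  rw [h1, ssum, map_sum]
  unfold lev
  refine Finset.sum_congr rfl fun i _ => ?_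
  rw [map_smul, smul_eq_mul, Complex.real_smul]
  rfl

theorem cot1 {N : ℕ} (v : Fin N → E1) (M : ℝ) (hM : ∀ ε, ‖ssum v ε‖ ≤ M) :
    ∑ i, ‖v i‖ ≤ Real.sqrt N * 2 * M := by
  have h1 : HasSum (fun l => ∑ i, ‖(v i : I → ℂ) l‖) (∑ i, ‖v i‖) :=
    hasSum_sum fun i _ => hasSum_norm1 (v i)
  have h2 : HasSum (fun l => Real.sqrt N * (2 * Ex fun ε => ‖(ssum v ε : I → ℂ) l‖))
      (Real.sqrt N * (2 * Ex fun ε => ‖ssum v ε‖)) := by
    refine HasSum.mul_left _ (HasSum.mul_left _ ?_)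
    unfold Ex
    exact HasSum.mul_left _ (hasSum_sum fun ε _ => hasSum_norm1 (ssum v ε))
  have h3 : ∀ l, ∑ i, ‖(v i : I → ℂ) l‖ ≤
      Real.sqrt N * (2 * Ex fun ε => ‖(ssum v ε : I → ℂ) l‖) := by
    intro l
    have e1 : ∑ i, ‖(v i : I → ℂ) l‖ ≤ Real.sqrt N * Real.sqrt (∑ i, ‖(v i : I → ℂ) l‖ ^ 2) := by
      rw [← Real.sqrt_mul (by positivity)]
      refine Real.le_sqrt_of_sq_le ?_
      have := sq_sum_le_card_mul_sum_sq (s := (Finset.univ : Finset (Fin N)))
        (f := fun i => ‖(v i : I → ℂ) l‖)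
      rwa [Finset.card_univ, Fintype.card_fin] at this
    refine e1.trans (mul_le_mul_of_nonneg_left ?_ (Real.sqrt_nonneg _))
    have := hilbert_cot N (fun i => (v i : I → ℂ) l)
    simp_rw [ssum_apply]
    exact this
  have h4 := hasSum_le h3 h1 h2
  have h5 : (Ex fun ε => ‖ssum v ε‖) ≤ M := by
    have := Ex_mono (I := Fin N) hM
    rwa [Ex_const] at this
  have h6 : Real.sqrt N * (2 * Ex fun ε => ‖ssum v ε‖) ≤ Real.sqrt N * (2 * M) :=
    mul_le_mul_of_nonneg_left (by linarith) (Real.sqrt_nonneg _)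
  linarith [h4, h6]

theorem sum_zc_le (N : ℕ) (a : A1) : ∑ i ∈ Finset.range N, ‖zc i a‖ ≤ Real.sqrt N * 2 * ‖a‖ := by
  rw [Finset.sum_range]
  refine cot1 (fun i : Fin N => zc i a) ‖a‖ fun ε => ?_
  classical
  let s : I := (Finset.range N).filter fun i => ∃ h : i < N, ε ⟨i, h⟩ = false
  have h1 : ssum (fun i : Fin N => zc i a) ε = ∑ i ∈ Finset.range N, rr i s • zc i a := by
    rw [Finset.sum_range]
    refine Finset.sum_congr rfl fun i _ => ?_
    congr 1
    have : (i : ℕ) ∈ s ↔ ε i = false := by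
      rw [Finset.mem_filter, Finset.mem_range]
      constructor
      · rintro ⟨_, h, h2⟩; exact h2
      · intro h; exact ⟨i.2, i.2, h⟩
    unfold rr sg
    simp only [this]
    cases ε i <;> simp
  rw [h1]
  exact sum_zc_norm_le N s (Finset.filter_subset _ _) a

/-- bounded sequences -/
abbrev BB : Type := BoundedContinuousFunction ℕ ℂ

/-- the bimodule -/
abbrev XX : Type := E1 →L[ℂ] BB

/-- the left action -/
noncomputable def lX : A1 →L[ℂ] XX →L[ℂ] XX :=
  ((ContinuousLinearMap.compL ℂ E1 E1 BB).flip).comp opL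

theorem lX_apply (a : A1) (W : XX) : lX a W = W.comp (op a) := rfl

/-- `a · W = W ∘ a`, `W · a = 0` -/
noncomputable def MX : Bimod A1 XX where
  l := lX
  r := 0
  l_mul a b W := rfl
  r_mul a b W := by simp
  l_r a b W := by simp

/-- unit vectors -/
noncomputable def dlt (i : ℕ) : BB :=
  BoundedContinuousFunction.ofNormedAddCommGroupDiscrete (fun k => if k = i then (1 : ℂ) else 0) 1
    (fun k => by split_ifs <;> simp)

theorem dlt_apply (i k : ℕ) : dlt i k = if k = i then 1 else 0 := rfl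

/-- rank one operators -/
noncomputable def TT (i : ℕ) : XX := (cf ∅).smulRight (dlt i)

theorem lX_TT (i : ℕ) (y : E1) : lX (gen (Sum.inr i) (ek ∅)) (TT i) y = rf i y • dlt i := by
  show cf ∅ (rf i y • ek ∅) • dlt i = _
  rw [map_smul, cf_ek, if_pos rfl, smul_eq_mul, mul_one]

/-- the test operators -/
noncomputable def WN (N : ℕ) : XX := ∑ i ∈ Finset.range N, lX (gen (Sum.inr i) (ek ∅)) (TT i)

theorem WN_apply (N : ℕ) (y : E1) (k : ℕ) : WN N y k = if k < N then rf k y else 0 := by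
  have h1 : WN N y = ∑ i ∈ Finset.range N, rf i y • dlt i := by
    rw [WN, ContinuousLinearMap.sum_apply]
    exact Finset.sum_congr rfl fun i _ => lX_TT i y
  rw [h1, BoundedContinuousFunction.sum_apply]
  have h2 : ∀ i, (rf i y • dlt i) k = if k = i then rf i y else 0 := by
    intro i
    show rf i y * dlt i k = _
    rw [dlt_apply]
    split_ifs <;> simp
  simp_rw [h2]
  rw [Finset.sum_ite_eq]
  simp [Finset.mem_range]

theorem norm_rf_apply_le (k : ℕ) (y : E1) : ‖rf k y‖ ≤ ‖y‖ := by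
  have := (rf k).le_opNorm y
  have h2 : ‖rf k‖ ≤ 1 := norm_ph_le (Sum.inr k)
  nlinarith [norm_nonneg y, norm_nonneg (rf k)]

theorem norm_WN_le (N : ℕ) : ‖WN N‖ ≤ 1 := by
  refine ContinuousLinearMap.opNorm_le_bound _ zero_le_one fun y => ?_
  rw [one_mul, BoundedContinuousFunction.norm_le (norm_nonneg _)]
  intro k
  rw [WN_apply]
  split_ifs
  · exact norm_rf_apply_le k y
  · rw [norm_zero]; exact norm_nonneg _

/-- the first differential -/
noncomputable def DX : PT A1 XX →L[ℂ] XX := dd MX.r (G0 MX)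

theorem DX_tau (a : A1) (W : XX) : DX (tau A1 XX a W) = - lX a W := by
  rw [DX, dd_tau, G0_tau]
  show (0 : A1 →L[ℂ] XX →L[ℂ] XX) a W + -(lX a W) = _
  simp

theorem WN_mem (N : ℕ) : ∃ u, DX u = WN N := by
  refine ⟨-∑ i ∈ Finset.range N, tau A1 XX (gen (Sum.inr i) (ek ∅)) (TT i), ?_⟩
  rw [map_neg, map_sum]
  simp_rw [DX_tau]
  rw [Finset.sum_neg_distrib, neg_neg]
  rfl

/-- evaluation functionals -/
noncomputable def th (i : ℕ) (x : E1) : XX →L[ℂ] ℂ :=
  (BoundedContinuousFunction.evalCLM ℂ i).comp (ContinuousLinearMap.apply ℂ BB x)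

theorem th_apply (i : ℕ) (x : E1) (W : XX) : th i x W = W x i := rfl

theorem norm_WxI_le (i : ℕ) (x : E1) (W : XX) : ‖W x i‖ ≤ ‖W‖ * ‖x‖ :=
  ((W x).norm_coe_le_norm i).trans (W.le_opNorm x)

theorem norm_th_le (i : ℕ) (x : E1) : ‖th i x‖ ≤ ‖x‖ := by
  refine ContinuousLinearMap.opNorm_le_bound _ (norm_nonneg _) fun W => ?_
  rw [th_apply, mul_comm]
  exact norm_WxI_le i x W

/-- averaged functionals -/
noncomputable def Th (N j : ℕ) : XX →L[ℂ] ℂ :=
  ((N : ℂ))⁻¹ • ∑ i ∈ Finset.range N, th i (xx i j)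

theorem norm_Th_le (N j : ℕ) : ‖Th N j‖ ≤ 1 := by
  rw [Th, norm_smul, norm_inv, Complex.norm_natCast]
  have h1 : ‖∑ i ∈ Finset.range N, th i (xx i j)‖ ≤ N := by
    refine (norm_sum_le _ _).trans ?_
    refine (Finset.sum_le_sum fun i _ => (norm_th_le i (xx i j)).trans (norm_xx_le i j)).trans ?_
    simp
  rcases Nat.eq_zero_or_pos N with h0 | h0
  · subst h0; simp
  · rw [inv_mul_le_iff₀ (by exact_mod_cast h0), mul_one]
    exact h1

/-- the limit bilinear form -/
noncomputable def BN (N : ℕ) : A1 →L[ℂ] XX →L[ℂ] ℂ :=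
  ((N : ℂ))⁻¹ • ∑ i ∈ Finset.range N,
    (ContinuousLinearMap.compL ℂ XX BB ℂ (BoundedContinuousFunction.evalCLM ℂ i)).comp
      ((ContinuousLinearMap.apply ℂ BB).comp (zc i))

theorem BN_apply (N : ℕ) (a : A1) (W : XX) :
    BN N a W = ((N : ℂ))⁻¹ * ∑ i ∈ Finset.range N, W (zc i a) i := by
  rw [BN, ContinuousLinearMap.smul_apply, ContinuousLinearMap.smul_apply,
    ContinuousLinearMap.sum_apply, ContinuousLinearMap.sum_apply]
  rfl

theorem norm_BN_le (N : ℕ) (hN : 0 < N) : ‖lift (BN N)‖ ≤ 2 / Real.sqrt N := by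
  have hpos : (0 : ℝ) < N := by exact_mod_cast hN
  refine norm_lift_le' _ (by positivity) fun a W => ?_
  rw [BN_apply, norm_mul, norm_inv, Complex.norm_natCast]
  have h1 : ‖∑ i ∈ Finset.range N, W (zc i a) i‖ ≤ ‖W‖ * (Real.sqrt N * 2 * ‖a‖) := by
    refine (norm_sum_le _ _).trans ?_
    refine (Finset.sum_le_sum fun i _ => norm_WxI_le i (zc i a) W).trans ?_
    rw [← Finset.mul_sum]
    exact mul_le_mul_of_nonneg_left (sum_zc_le N a) (norm_nonneg _)
  have h2 : (N : ℝ)⁻¹ * (‖W‖ * (Real.sqrt N * 2 * ‖a‖)) = 2 / Real.sqrt N * ‖a‖ * ‖W‖ := by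
    have h3 : Real.sqrt N * Real.sqrt N = N := Real.mul_self_sqrt hpos.le
    have h4 : Real.sqrt N ≠ 0 := (Real.sqrt_pos.2 hpos).ne'
    field_simp
    rw [sq, h3]
    ring
  rw [← h2]
  exact mul_le_mul_of_nonneg_left h1 (by positivity)

theorem tendsto_Th (N : ℕ) (u : PT A1 XX) :
    Tendsto (fun j => ((Th N j).comp DX + lift (BN N)) u) atTop (𝓝 0) := by
  refine PT.tendsto _ (1 * ‖DX‖ + ‖lift (BN N)‖) (fun j => ?_) (fun a W => ?_) u
  · exact (norm_add_le _ _).trans (add_le_add ((ContinuousLinearMap.opNorm_comp_le _ _).trans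
      (mul_le_mul_of_nonneg_right (norm_Th_le N j) (norm_nonneg _))) le_rfl)
  · have h1 : ∀ j, ((Th N j).comp DX + lift (BN N)) (tau A1 XX a W) =
        -(((N : ℂ))⁻¹ * ∑ i ∈ Finset.range N, W (op a (xx i j)) i) +
          ((N : ℂ))⁻¹ * ∑ i ∈ Finset.range N, W (zc i a) i := by
      intro j
      rw [add_apply, lift_tau, BN_apply, ContinuousLinearMap.comp_apply, DX_tau, map_neg]
      congr 2
      rw [Th, ContinuousLinearMap.smul_apply, ContinuousLinearMap.sum_apply]
      rfl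
    simp_rw [h1]
    have h2 : Tendsto (fun j => ((N : ℂ))⁻¹ * ∑ i ∈ Finset.range N, W (op a (xx i j)) i) atTop
        (𝓝 (((N : ℂ))⁻¹ * ∑ i ∈ Finset.range N, W (zc i a) i)) := by
      refine Tendsto.const_mul _ (tendsto_finsetSum _ fun i _ => ?_)
      have hc : Continuous fun x : E1 => W x i :=
        ((BoundedContinuousFunction.evalCLM ℂ i).comp W).continuous
      exact (hc.tendsto _).comp (zc_tendsto i a)
    simpa using h2.neg.add_const (((N : ℂ))⁻¹ * ∑ i ∈ Finset.range N, W (zc i a) i)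

theorem tendsto_Th_WN (N : ℕ) (hN : 0 < N) : Tendsto (fun j => Th N j (WN N)) atTop (𝓝 1) := by
  have hpos : (N : ℂ) ≠ 0 := by exact_mod_cast hN.ne'
  have h1 : ∀ j, Th N j (WN N) = ((N : ℂ))⁻¹ * ∑ i ∈ Finset.range N, rf i (xx i j) := by
    intro j
    rw [Th, ContinuousLinearMap.smul_apply, ContinuousLinearMap.sum_apply, smul_eq_mul]
    congr 1
    refine Finset.sum_congr rfl fun i hi => ?_
    rw [th_apply, WN_apply, if_pos (Finset.mem_range.1 hi)]
  simp_rw [h1]
  have h2 : Tendsto (fun j => ((N : ℂ))⁻¹ * ∑ i ∈ Finset.range N, rf i (xx i j)) atTop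
      (𝓝 (((N : ℂ))⁻¹ * ∑ i ∈ Finset.range N, (1 : ℂ))) := by
    refine Tendsto.const_mul _ (tendsto_finsetSum _ fun i _ => ?_)
    refine tendsto_const_nhds.congr' ?_
    filter_upwards [ph_xx i (Sum.inr i)] with j hj
    have h3 : rf i (xx i j) = vv i (Sum.inr i) := hj
    rw [h3]
    show (1 : ℂ) = if i = i then 1 else 0
    rw [if_pos rfl]
  have h3 : ((N : ℂ))⁻¹ * ∑ i ∈ Finset.range N, (1 : ℂ) = 1 := by
    rw [Finset.sum_const, Finset.card_range, nsmul_eq_mul, mul_one, inv_mul_cancel₀ hpos]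
  rwa [h3] at h2

theorem not_closed_DX : ¬ IsClosed (Set.range DX) := by
  intro hcl
  obtain ⟨C, hC, h⟩ := closed_range_bound DX hcl
  have key : ∀ N : ℕ, 0 < N → 1 ≤ 2 / Real.sqrt N * C := by
    intro N hN
    obtain ⟨u0, hu0⟩ := WN_mem N
    obtain ⟨u, hu, hun⟩ := h u0
    rw [hu0] at hu hun
    have h1 := tendsto_Th N u
    have h2 : ∀ j, ((Th N j).comp DX + lift (BN N)) u = Th N j (WN N) + lift (BN N) u := by
      intro j
      rw [add_apply, ContinuousLinearMap.comp_apply, hu]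
    simp_rw [h2] at h1
    have h3 := (tendsto_Th_WN N hN).add_const (lift (BN N) u)
    have h4 : 1 + lift (BN N) u = 0 := tendsto_nhds_unique h3 h1
    have h5 : lift (BN N) u = -1 := by linear_combination h4
    have h6 := (lift (BN N)).le_opNorm u
    rw [h5, norm_neg, norm_one] at h6
    refine h6.trans ?_
    refine mul_le_mul (norm_BN_le N hN) ?_ (norm_nonneg _) (by positivity)
    refine hun.trans ?_
    exact mul_le_of_le_one_right hC.le (norm_WN_le N)
  obtain ⟨n, hn⟩ := exists_nat_gt (4 * C ^ 2)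
  have hn0 : 0 < n := by
    have : (0:ℝ) < n := lt_of_le_of_lt (by positivity) hn
    exact_mod_cast this
  have h1 := key n hn0
  have hs : 0 < Real.sqrt n := Real.sqrt_pos.2 (by exact_mod_cast hn0)
  rw [div_mul_eq_mul_div, le_div_iff₀ hs, one_mul] at h1
  have h2 : Real.sqrt n * Real.sqrt n ≤ (2 * C) * (2 * C) :=
    mul_le_mul h1 h1 hs.le (by positivity)
  rw [Real.mul_self_sqrt (by positivity)] at h2
  nlinarith

end H601H
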