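import Pool.Agent.H601H.Defs

/-!
Universal property of the chain spaces.
-/

set_option autoImplicit false
set_option maxSynthPendingDepth 3
set_option linter.unusedSectionVars false
set_option linter.deprecated false

namespace H601H

universe u

variable {A : Type} [NonUnitalNormedRing A] [NormedSpace ℂ A] [IsScalarTower ℂ A A]
    [SMulCommClass ℂ A A] [CompleteSpace A]
variable {X : Type u} [NormedAddCommGroup X] [NormedSpace ℂ X] [CompleteSpace X]

theorem chain_ext (M : Bimod A X) (n : ℕ) {F : Type u} [NormedAddCommGroup F] [NormedSpace ℂ F]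
    (f g : Chain M n →L[ℂ] F) (h : ∀ x a, f (elem M n x a) = g (elem M n x a)) : f = g := by
  induction n with
  | zero =>
    refine ContinuousLinearMap.ext fun x => ?_
    exact h x (fun i => i.elim0)
  | succ n ih =>
    refine PT.ext_clm (A := A) (Y := Chain M n) fun a y => ?_
    have h1 : f.comp (ins M n a) = g.comp (ins M n a) := by
      refine ih _ _ fun x b => ?_
      have := h x (Fin.cons a b)
      rw [elem_succ, Fin.cons_zero, Fin.tail_cons] at this
      exact this
    exact congrArg (fun k => k y) h1

theorem chain_lift (M : Bimod A X) (n : ℕ) {F : Type u} [NormedAddCommGroup F] [NormedSpace ℂ F]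
    [CompleteSpace F] (φ : X →ₗ[ℂ] MultilinearMap ℂ (fun _ : Fin n => A) F) (K : ℝ) (hK : 0 ≤ K)
    (h : ∀ x a, ‖φ x a‖ ≤ K * (‖x‖ * ∏ i, ‖a i‖)) :
    ∃ g : Chain M n →L[ℂ] F, ‖g‖ ≤ K ∧ ∀ x a, g (elem M n x a) = φ x a := by
  induction n generalizing K with
  | zero =>
    let g : X →L[ℂ] F := LinearMap.mkContinuous
      { toFun := fun x => φ x (fun i => i.elim0)
        map_add' := fun x y => by rw [map_add]; rfl
        map_smul' := fun c x => by rw [map_smul]; rfl } K (fun x => by
          have := h x (fun i => i.elim0)
          simpa using this)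
    refine ⟨g, LinearMap.mkContinuous_norm_le _ hK _, fun x a => ?_⟩
    show φ x (fun i => i.elim0) = φ x a
    congr 1
    exact Subsingleton.elim _ _
  | succ n ih =>
    have h1 : ∀ a0 : A, ∃ g : Chain M n →L[ℂ] F, ‖g‖ ≤ K * ‖a0‖ ∧
        ∀ x a, g (elem M n x a) = φ x (Fin.cons a0 a) := by
      intro a0
      let ψ : X →ₗ[ℂ] MultilinearMap ℂ (fun _ : Fin n => A) F :=
        { toFun := fun x => (φ x).curryLeft a0
          map_add' := fun x y => by
            ext a
            simp only [MultilinearMap.curryLeft_apply, map_add, MultilinearMap.add_apply]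
          map_smul' := fun c x => by
            ext a
            simp only [MultilinearMap.curryLeft_apply, map_smul, MultilinearMap.smul_apply,
              RingHom.id_apply] }
      obtain ⟨g, hg, hg2⟩ := ih ψ (K * ‖a0‖) (by positivity) (fun x a => by
        have := h x (Fin.cons a0 a)
        rw [Fin.prod_univ_succ, Fin.cons_zero] at this
        simp only [Fin.cons_succ] at this
        show ‖φ x (Fin.cons a0 a)‖ ≤ _
        refine this.trans (le_of_eq (by ring)))
      exact ⟨g, hg, hg2⟩
    choose g hg hg2 using h1
    let B : A →L[ℂ] Chain M n →L[ℂ] F := LinearMap.mkContinuous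
      { toFun := g
        map_add' := fun a b => by
          refine chain_ext M n _ _ fun x c => ?_
          rw [add_apply, hg2, hg2, hg2]
          have := (φ x).cons_add c a b
          exact this
        map_smul' := fun k a => by
          refine chain_ext M n _ _ fun x c => ?_
          rw [RingHom.id_apply, ContinuousLinearMap.smul_apply, hg2, hg2]
          exact (φ x).cons_smul c k a } K hg
    refine ⟨lift B, (norm_lift_le B).trans (LinearMap.mkContinuous_norm_le _ hK _), fun x a => ?_⟩
    have h2 : lift B (elem M (n + 1) x a) = B (a 0) (elem M n x (Fin.tail a)) := by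
      rw [elem_succ]; exact lift_tau B _ _
    refine Eq.trans h2 ?_
    show g (a 0) (elem M n x (Fin.tail a)) = _
    rw [hg2, Fin.cons_self_tail]

/-- The elementary tensors as a multilinear map. -/
noncomputable def elemM (M : Bimod A X) :
    (n : ℕ) → X →ₗ[ℂ] MultilinearMap ℂ (fun _ : Fin n => A) (Chain M n)
  | 0 =>
    { toFun := fun x => MultilinearMap.constOfIsEmpty ℂ _ (x : Chain M 0)
      map_add' := fun x y => MultilinearMap.ext fun _ => rfl
      map_smul' := fun c x => MultilinearMap.ext fun _ => rfl }
  | n + 1 =>
    { toFun := fun x => LinearMap.uncurryLeft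
        { toFun := fun a0 => (ins M n a0).toLinearMap.compMultilinearMap (elemM M n x)
          map_add' := fun a b => by
            refine MultilinearMap.ext fun c => ?_
            show tau A (Chain M n) (a + b) (elemM M n x c) =
              tau A (Chain M n) a (elemM M n x c) + tau A (Chain M n) b (elemM M n x c)
            rw [map_add]; rfl
          map_smul' := fun k a => by
            refine MultilinearMap.ext fun c => ?_
            show tau A (Chain M n) (k • a) (elemM M n x c) =
              k • tau A (Chain M n) a (elemM M n x c)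
            rw [map_smul]; rfl }
      map_add' := fun x y => by
        refine MultilinearMap.ext fun a => ?_
        show ins M n (a 0) (elemM M n (x + y) (Fin.tail a)) =
          ins M n (a 0) (elemM M n x (Fin.tail a)) + ins M n (a 0) (elemM M n y (Fin.tail a))
        have h : elemM M n (x + y) = elemM M n x + elemM M n y := map_add _ _ _
        rw [h]
        exact map_add (ins M n (a 0)) _ _
      map_smul' := fun c x => by
        refine MultilinearMap.ext fun a => ?_
        show ins M n (a 0) (elemM M n (c • x) (Fin.tail a)) =
          c • ins M n (a 0) (elemM M n x (Fin.tail a))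
        have h : elemM M n (c • x) = c • elemM M n x := map_smul _ _ _
        rw [h]
        exact map_smul (ins M n (a 0)) _ _ }

theorem elemM_apply (M : Bimod A X) (n : ℕ) (x : X) (a : Fin n → A) :
    elemM M n x a = elem M n x a := by
  induction n with
  | zero => rfl
  | succ n ih =>
    have h1 : elemM M (n + 1) x a = ins M n (a 0) (elemM M n x (Fin.tail a)) := rfl
    rw [h1, ih, elem_succ]

theorem norm_elem_le (M : Bimod A X) (n : ℕ) (x : X) (a : Fin n → A) :
    ‖elem M n x a‖ ≤ ‖x‖ * ∏ i, ‖a i‖ := by
  induction n with
  | zero =>
    have : ‖elem M 0 x a‖ = ‖x‖ := rfl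
    rw [this]; simp
  | succ n ih =>
    have h1 : ‖elem M (n + 1) x a‖ ≤ ‖a 0‖ * ‖elem M n x (Fin.tail a)‖ := norm_tau_le _ _
    refine h1.trans ?_
    rw [Fin.prod_univ_succ]
    have := mul_le_mul_of_nonneg_left (ih (Fin.tail a)) (norm_nonneg (a 0))
    refine this.trans (le_of_eq ?_)
    simp only [Fin.tail]
    ring

end H601H
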