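import Pool.Agent.H601H.HochDefs
import Pool.Agent.H601H.Univ
import Pool.Agent.H601H.NonAm
import Pool.Agent.H601H.Alg3

/-!
The concrete Hochschild complex realises the universal-property definition, and any two
realisations are isomorphic.
-/

set_option autoImplicit false
set_option maxSynthPendingDepth 3
set_option linter.unusedSectionVars false
set_option linter.deprecated false

namespace H601H

set_option maxHeartbeats 400000

universe u

section
variable {A : Hoch.BAlg} {X : Hoch.BSpace.{u}}

/-- the bimodule with bundled continuous actions -/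
noncomputable def toB (M : Hoch.Bimod A X) : Bimod A.S X.S where
  l := M.l_bilin.toContinuousLinearMap
  r := M.r_bilin.toContinuousLinearMap.flip
  l_mul a b x := M.l_mul a b x
  r_mul a b x := M.r_mul x a b
  l_r a b x := M.l_r a x b

theorem toB_l (M : Hoch.Bimod A X) (a : A.S) (x : X.S) : (toB M).l a x = M.l a x := rfl
theorem toB_r (M : Hoch.Bimod A X) (a : A.S) (x : X.S) : (toB M).r a x = M.r x a := rfl

/-- the chain space as a bundled Banach space -/
noncomputable def ChB (M : Bimod A.S X.S) (n : ℕ) : Hoch.BSpace.{u} where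
  S := Chain M n

/-- elementary tensors, bundled -/
noncomputable def elB (M : Bimod A.S X.S) (n : ℕ) : Hoch.Multi A X (ChB M n) n := elemM M n

theorem elB_app (M : Bimod A.S X.S) (n : ℕ) (x : X.S) (a : Fin n → A.S) :
    (elB M n).app x a = elem M n x a := elemM_apply M n x a

theorem isTensor_elB (M : Bimod A.S X.S) (n : ℕ) : Hoch.IsProjTensor (elB M n) where
  bound x a := by rw [elB_app, one_mul]; exact norm_elem_le M n x a
  lift F φ K hK h := by
    obtain ⟨g, hg, hg2⟩ := chain_lift (F := F.S) M n φ K hK h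
    refine ⟨g, fun x a => by rw [elB_app]; exact hg2 x a, fun c => ?_⟩
    exact (g.le_opNorm c).trans (mul_le_mul_of_nonneg_right hg (norm_nonneg _))
  ext F f g h := chain_ext M n f g fun x a => by
    rw [← elB_app]; exact h x a

/-- the concrete Hochschild complex -/
noncomputable def conc (M : Hoch.Bimod A X) : Hoch.HochschildComplex M where
  C := ChB (toB M)
  τ := elB (toB M)
  isTensor := isTensor_elB (toB M)
  d := d (toB M)
  isDiff n x a := by
    simp only [elB_app]
    exact d_elem (toB M) n x a

end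

section
variable {A : Hoch.BAlg} {X : Hoch.BSpace.{u}}
variable {M : Hoch.Bimod A X} (H : Hoch.HochschildComplex M)

theorem exists_phi (n : ℕ) : ∃ g : Chain (toB M) n →L[ℂ] (H.C n).S,
    ∀ x a, g (elem (toB M) n x a) = (H.τ n).app x a := by
  obtain ⟨g, _, hg⟩ := chain_lift (F := (H.C n).S) (toB M) n (H.τ n) 1 zero_le_one
    (fun x a => (H.isTensor n).bound x a)
  exact ⟨g, hg⟩

theorem exists_psi (n : ℕ) : ∃ g : (H.C n).S →L[ℂ] Chain (toB M) n,
    ∀ x a, g ((H.τ n).app x a) = elem (toB M) n x a := by
  obtain ⟨g, hg, _⟩ := (H.isTensor n).lift (ChB (toB M) n) (elB (toB M) n) 1 zero_le_one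
    (isTensor_elB (toB M) n).bound
  exact ⟨g, fun x a => (hg x a).trans (elB_app _ _ _ _)⟩

theorem transfer (j : ℕ) (hv : HomologyVanishes (toB M) j) : Hoch.HomologyVanishes H j := by
  choose φ hφ using exists_phi H
  choose ψ hψ using exists_psi H
  have h1 : ∀ n z, ψ n (φ n z) = z := by
    intro n z
    have : (ψ n).comp (φ n) = ContinuousLinearMap.id ℂ _ := by
      refine chain_ext _ n _ _ fun x a => ?_
      rw [ContinuousLinearMap.comp_apply, hφ, hψ]; rfl
    exact congrArg (fun k => k z) this
  have h2 : ∀ n z, φ n (ψ n z) = z := by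
    intro n z
    have : (φ n).comp (ψ n) = ContinuousLinearMap.id ℂ _ := by
      refine (H.isTensor n).ext (H.C n) _ _ fun x a => ?_
      rw [ContinuousLinearMap.comp_apply, hψ, hφ]; rfl
    exact congrArg (fun k => k z) this
  have h3 : ∀ n z, φ n (d (toB M) n z) = H.d n (φ (n + 1) z) := by
    intro n z
    have : (φ n).comp (d (toB M) n) = (H.d n).comp (φ (n + 1)) := by
      refine chain_ext _ (n + 1) _ _ fun x a => ?_
      rw [ContinuousLinearMap.comp_apply, ContinuousLinearMap.comp_apply, hφ, H.isDiff, d_elem,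
        map_add, map_add, map_sum, map_smul, hφ, hφ]
      simp only [map_smul, hφ]
      rfl
    exact congrArg (fun k => k z) this
  intro z
  constructor
  · intro hz
    have hz' : d (toB M) j (ψ (j + 1) z) = 0 := by
      have := h3 j (ψ (j + 1) z)
      rw [h2, hz] at this
      have h4 := congrArg (ψ j) this
      rw [h1, map_zero] at h4
      exact h4
    obtain ⟨w, hw⟩ := (hv _).1 hz'
    refine ⟨φ (j + 2) w, ?_⟩
    have := h3 (j + 1) w
    rw [hw, h2] at this
    exact this.symm
  · rintro ⟨w, hw⟩
    have h5 : d (toB M) (j + 1) (ψ (j + 2) w) = ψ (j + 1) z := by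
      have := h3 (j + 1) (ψ (j + 2) w)
      rw [h2, hw] at this
      rw [← this, h1]
    have h6 : d (toB M) j (ψ (j + 1) z) = 0 := (hv _).2 ⟨_, h5⟩
    have := h3 j (ψ (j + 1) z)
    rw [h2, h6, map_zero] at this
    exact this.symm

end

/-- the algebra, bundled -/
noncomputable def AB : Hoch.BAlg where
  S := A1

/-- the bimodule space, bundled -/
noncomputable def XB : Hoch.BSpace.{0} where
  S := XX

/-- left action -/
noncomputable def lXl (a : A1) (W : XX) : XX := lX a W

/-- zero right action -/
noncomputable def rXl (_ : XX) (_ : A1) : XX := 0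

theorem lXl_mul (a b : A1) (W : XX) : lXl (a * b) W = lXl a (lXl b W) := rfl
theorem rXl_mul (W : XX) (a b : A1) : rXl W (a * b) = rXl (rXl W a) b := rfl
theorem lXl_r (a : A1) (W : XX) (b : A1) : rXl (lXl a W) b = lXl a (rXl W b) := by
  show (0 : XX) = lX a 0
  rw [map_zero]
theorem lXl_bilin : IsBoundedBilinearMap ℂ fun q : A1 × XX => lXl q.1 q.2 :=
  lX.isBoundedBilinearMap
theorem rXl_bilin : IsBoundedBilinearMap ℂ fun q : XX × A1 => rXl q.1 q.2 :=
  (0 : XX →L[ℂ] A1 →L[ℂ] XX).isBoundedBilinearMap

/-- the bimodule `MX` -/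
noncomputable def MXh : Hoch.Bimod AB XB where
  l := lXl
  r := rXl
  l_bilin := lXl_bilin
  r_bilin := rXl_bilin
  l_mul := lXl_mul
  r_mul := rXl_mul
  l_r := lXl_r

/-- its first differential -/
noncomputable def DXh : PT A1 XX →L[ℂ] XX := dd (toB MXh).r (G0 (toB MXh))

theorem DXh_eq : DXh = DX := by
  refine PT.ext_clm fun a W => ?_
  rw [DX_tau]
  have h1 : DXh (tau A1 XX a W) = (toB MXh).r a W + G0 (toB MXh) (tau A1 XX a W) := dd_tau _ _ _ _
  have h2 : G0 (toB MXh) (tau A1 XX a W) = - (toB MXh).l a W := G0_tau (toB MXh) a W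
  rw [h1, h2]
  show (0 : XX) + - lX a W = _
  rw [zero_add]

theorem not_amenable : ¬ Hoch.Amenable.{0} AB := by
  intro h
  have h1 := (h XB MXh (conc MXh)).2
  have h2 : IsClosed (Set.range DXh) := h1
  rw [DXh_eq] at h2
  exact not_closed_DX h2

theorem main_vanish {X : Hoch.BSpace.{u}} (M : Hoch.Bimod AB X) (H : Hoch.HochschildComplex M)
    (j : ℕ) : Hoch.HomologyVanishes H j :=
  transfer H j (vanishes (A := A1) goodA1 (toB M) j)

end H601H
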