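import Pool.Agent.H601H.Base

/-!
The Hochschild chain complex of a Banach bimodule over a Banach algebra, its homology, and
amenability.
-/

set_option autoImplicit false
set_option maxSynthPendingDepth 3

namespace H601H

universe u

/-- One stage of the Hochschild chain complex: the chain space `C` (a Banach space, `C_n(A, X)`), the
right action `R a : C → C` of `A` on it through the `X`-coordinate, and the bounded operator
`G : A ⊗̂ C → C` which is the differential `C_{n+1}(A, X) → C_n(A, X)` without its first summand. -/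
structure Level (A : Type) [NonUnitalNormedRing A] [NormedSpace ℂ A] [IsScalarTower ℂ A A]
    [SMulCommClass ℂ A A] [CompleteSpace A] where
  C : Type u
  [ng : NormedAddCommGroup C]
  [ns : NormedSpace ℂ C]
  [cs : CompleteSpace C]
  R : A →L[ℂ] C →L[ℂ] C
  G : PT A C →L[ℂ] C

attribute [instance] Level.ng Level.ns Level.cs

variable {A : Type} [NonUnitalNormedRing A] [NormedSpace ℂ A] [IsScalarTower ℂ A A]
    [SMulCommClass ℂ A A] [CompleteSpace A]

/-- The next stage: `C' = A ⊗̂ C`, `R' b (a ⊗ c) = a ⊗ R b c` and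
`G' (a ⊗ (b ⊗ c)) = - (ab) ⊗ c - a ⊗ G (b ⊗ c)`. -/
noncomputable def Level.next (L : Level.{u} A) : Level.{u} A where
  C := PT A L.C
  R := Rs L.R
  G := Gs L.G

/-- The stages of the complex of the bimodule `M`. Stage `0` is `C = X`, `R a x = x · a`,
`G (a ⊗ x) = - a · x`. -/
noncomputable def level {X : Type u} [NormedAddCommGroup X] [NormedSpace ℂ X] [CompleteSpace X]
    (M : Bimod A X) : ℕ → Level.{u} A
  | 0 => { C := X, R := M.r, G := G0 M }
  | n + 1 => (level M n).next

section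
variable {X : Type u} [NormedAddCommGroup X] [NormedSpace ℂ X] [CompleteSpace X]

/-- The space of chains `C_n(A, X) = X ⊗̂ A ⊗̂ ⋯ ⊗̂ A` (`n` factors `A`), realised as the iterated
completed projective tensor product `A ⊗̂ (A ⊗̂ ⋯ (A ⊗̂ X))`; the elementary tensor
`x ⊗ a₁ ⊗ ⋯ ⊗ aₙ` is `a₁ ⊗ (a₂ ⊗ ⋯ (aₙ ⊗ x))`. -/
abbrev Chain (M : Bimod A X) (n : ℕ) : Type u := (level M n).C

/-- The Hochschild differential `C_{n+1}(A, X) → C_n(A, X)`, see `d_elem` for its value on
elementary tensors. -/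
noncomputable def d (M : Bimod A X) (n : ℕ) : Chain M (n + 1) →L[ℂ] Chain M n :=
  dd (level M n).R (level M n).G

/-- `H_{j+1}(A, X) = 0`: the kernel of `d j : C_{j+1} → C_j` is the image of
`d (j+1) : C_{j+2} → C_{j+1}`. -/
def HomologyVanishes (M : Bimod A X) (j : ℕ) : Prop :=
  ∀ z : Chain M (j + 1), d M j z = 0 ↔ ∃ w : Chain M (j + 2), d M (j + 1) w = z

/-- The elementary tensor `x ⊗ a₁ ⊗ ⋯ ⊗ aₙ` in `C_n(A, X)`. -/
noncomputable def elem (M : Bimod A X) : (n : ℕ) → X → (Fin n → A) → Chain M n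
  | 0, x, _ => x
  | n + 1, x, a => tau A (Chain M n) (a 0) (elem M n x (Fin.tail a))

end

/-- Amenability of a Banach algebra `A`: for every Banach `A`-bimodule `X`, `H_1(A, X) = 0` and
`H_0(A, X)` is Hausdorff, that is, the image of `d_0 : C_1(A, X) → C_0(A, X)` is closed. -/
def Amenable (A : Type) [NonUnitalNormedRing A] [NormedSpace ℂ A] [IsScalarTower ℂ A A]
    [SMulCommClass ℂ A A] [CompleteSpace A] : Prop :=
  ∀ (X : Type u) [NormedAddCommGroup X] [NormedSpace ℂ X] [CompleteSpace X] (M : Bimod A X),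
    HomologyVanishes M 0 ∧ IsClosed (Set.range (d M 0))

section
variable {X : Type u} [NormedAddCommGroup X] [NormedSpace ℂ X] [CompleteSpace X]

theorem level_lw (M : Bimod A X) (n : ℕ) : Lw (level M n).R (level M n).G := by
  induction n with
  | zero => exact M.lw
  | succ n ih => exact ih.step

theorem vanishes (g : Good A) (M : Bimod A X) (j : ℕ) : HomologyVanishes M j := by
  intro z
  constructor
  · intro hz
    cases j with
    | zero => exact exact_base g M z hz
    | succ j => exact exact_high g (level_lw M j) z hz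
  · rintro ⟨w, rfl⟩
    exact dd_dd (level_lw M j) w

/-- `c ↦ a ⊗ c` -/
noncomputable def ins (M : Bimod A X) (n : ℕ) (a : A) : Chain M n →L[ℂ] Chain M (n + 1) :=
  tau A (Chain M n) a

theorem elem_succ (M : Bimod A X) (n : ℕ) (x : X) (a : Fin (n + 1) → A) :
    elem M (n + 1) x a = ins M n (a 0) (elem M n x (Fin.tail a)) := rfl

omit [NormedSpace ℂ A] [IsScalarTower ℂ A A] [SMulCommClass ℂ A A] [CompleteSpace A] in
theorem contractNth_zero {n : ℕ} (a : Fin (n + 2) → A) :
    Fin.contractNth 0 (· * ·) a = Fin.cons (a 0 * a 1) (Fin.tail (Fin.tail a)) := by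
  ext1 k
  refine Fin.cases ?_ (fun k => ?_) k
  · rw [Fin.contractNth_apply_of_eq _ _ _ _ (by simp), Fin.cons_zero]
    rfl
  · rw [Fin.contractNth_apply_of_gt _ _ _ _ (by simp), Fin.cons_succ]
    rfl

omit [NormedSpace ℂ A] [IsScalarTower ℂ A A] [SMulCommClass ℂ A A] [CompleteSpace A] in
theorem contractNth_succ {n : ℕ} (j : Fin (n + 1)) (a : Fin (n + 2) → A) :
    Fin.contractNth j.succ (· * ·) a = Fin.cons (a 0) (Fin.contractNth j (· * ·) (Fin.tail a)) := by
  ext1 k
  refine Fin.cases ?_ (fun k => ?_) k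
  · rw [Fin.contractNth_apply_of_lt _ _ _ _ (by simp), Fin.cons_zero]
    rfl
  · rw [Fin.cons_succ]
    rcases lt_trichotomy (k : ℕ) (j : ℕ) with h | h | h
    · rw [Fin.contractNth_apply_of_lt _ _ _ _ (by simpa using h),
        Fin.contractNth_apply_of_lt _ _ _ _ h]
      rfl
    · rw [Fin.contractNth_apply_of_eq _ _ _ _ (by simpa using h),
        Fin.contractNth_apply_of_eq _ _ _ _ h]
      rfl
    · rw [Fin.contractNth_apply_of_gt _ _ _ _ (by simpa using h),
        Fin.contractNth_apply_of_gt _ _ _ _ h]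
      rfl

theorem R_elem (M : Bimod A X) (b : A) (x : X) (n : ℕ) (a : Fin n → A) :
    (level M n).R b (elem M n x a) = elem M n (M.r b x) a := by
  induction n with
  | zero => rfl
  | succ n ih =>
    show Rs (level M n).R b (tau A (Chain M n) (a 0) (elem M n x (Fin.tail a))) =
      tau A (Chain M n) (a 0) (elem M n (M.r b x) (Fin.tail a))
    rw [Rs_tau, ih]

theorem G_ins (M : Bimod A X) (n : ℕ) (a b : A) (c : Chain M n) :
    (level M (n + 1)).G (tau A (Chain M (n + 1)) a (ins M n b c)) =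
      - ins M n (a * b) c - ins M n a ((level M n).G (tau A (Chain M n) b c)) :=
  Gs_tau_tau (level M n).G a b c

theorem G_elem (M : Bimod A X) (x : X) (n : ℕ) (a : Fin (n + 1) → A) :
    (level M n).G (tau A (Chain M n) (a 0) (elem M n x (Fin.tail a))) =
      ∑ i : Fin n, (-1 : ℂ) ^ ((i : ℕ) + 1) • elem M n x (Fin.contractNth i.castSucc (· * ·) a)
      + (-1 : ℂ) ^ (n + 1) • elem M n (M.l (a (Fin.last n)) x) (Fin.init a) := by
  induction n with
  | zero =>
    have h1 : (level M 0).G (tau A (Chain M 0) (a 0) (elem M 0 x (Fin.tail a))) = - M.l (a 0) x :=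
      G0_tau M (a 0) x
    have e : ((-1 : ℂ) ^ (0 + 1)) = -1 := by norm_num
    rw [h1, Finset.univ_eq_empty, Finset.sum_empty, e, neg_one_smul]
    exact (zero_add _).symm
  | succ n ih =>
    rw [elem_succ, G_ins]
    have ih' := ih (Fin.tail a)
    rw [show Fin.tail a 0 = a 1 from rfl] at ih' ⊢
    rw [ih', Fin.sum_univ_succ]
    have h0 : (-1 : ℂ) ^ (((0 : Fin (n + 1)) : ℕ) + 1) •
        elem M (n + 1) x (Fin.contractNth (Fin.castSucc 0) (· * ·) a) =
        -ins M n (a 0 * a 1) (elem M n x (Fin.tail (Fin.tail a))) := by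
      rw [Fin.castSucc_zero, contractNth_zero, elem_succ, Fin.cons_zero, Fin.tail_cons]
      simp
    rw [h0, map_add, map_sum]
    have h1 : ∀ i : Fin n, (-1 : ℂ) ^ ((i.succ : ℕ) + 1) •
        elem M (n + 1) x (Fin.contractNth (Fin.castSucc i.succ) (· * ·) a) =
        -ins M n (a 0) ((-1 : ℂ) ^ ((i : ℕ) + 1) •
          elem M n x (Fin.contractNth i.castSucc (· * ·) (Fin.tail a))) := by
      intro i
      rw [Fin.castSucc_succ, contractNth_succ, elem_succ, Fin.cons_zero, Fin.tail_cons, map_smul,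
        Fin.val_succ, pow_succ, mul_neg_one, neg_smul]
    rw [Finset.sum_congr rfl fun i _ => h1 i]
    have h2 : (-1 : ℂ) ^ (n + 1 + 1) • elem M (n + 1) (M.l (a (Fin.last (n + 1))) x) (Fin.init a) =
        -ins M n (a 0) ((-1 : ℂ) ^ (n + 1) •
          elem M n (M.l (Fin.tail a (Fin.last n)) x) (Fin.init (Fin.tail a))) := by
      rw [elem_succ, map_smul, pow_succ, mul_neg_one, neg_smul]
      rfl
    rw [h2, Finset.sum_neg_distrib]
    abel

/-- The differential `d n` is the Hochschild differential: on elementary tensors it is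
`x ⊗ a₁ ⊗ ⋯ ⊗ a_{n+1} ↦ x·a₁ ⊗ a₂ ⊗ ⋯ ⊗ a_{n+1} + ∑_{i=1}^{n} (-1)^i x ⊗ ⋯ ⊗ a_i a_{i+1} ⊗ ⋯
+ (-1)^{n+1} a_{n+1}·x ⊗ a₁ ⊗ ⋯ ⊗ a_n`. -/
theorem d_elem (M : Bimod A X) (n : ℕ) (x : X) (a : Fin (n + 1) → A) :
    d M n (elem M (n + 1) x a) =
      elem M n (M.r (a 0) x) (Fin.tail a)
      + ∑ i : Fin n, (-1 : ℂ) ^ ((i : ℕ) + 1) • elem M n x (Fin.contractNth i.castSucc (· * ·) a)
      + (-1 : ℂ) ^ (n + 1) • elem M n (M.l (a (Fin.last n)) x) (Fin.init a) := by
  have h : d M n (elem M (n + 1) x a) =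
      lift (level M n).R (tau A (Chain M n) (a 0) (elem M n x (Fin.tail a))) +
      (level M n).G (tau A (Chain M n) (a 0) (elem M n x (Fin.tail a))) := rfl
  rw [h, G_elem, lift_tau, R_elem, add_assoc]

end

end H601H
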