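import Pool.Agent.H601H.Homot

/-!
Exactness of the Hochschild complex in positive degrees for a good algebra.
-/

set_option autoImplicit false
set_option maxSynthPendingDepth 3
set_option linter.unusedSectionVars false
set_option linter.deprecated false

namespace H601H
open Filter Topology

universe u v w

/-- Solving approximately with control of norms is enough. -/
theorem exact_of_approx {U : Type u} {V : Type v} {W : Type w}
    [NormedAddCommGroup U] [NormedSpace ℂ U]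
    [NormedAddCommGroup V] [NormedSpace ℂ V] [NormedAddCommGroup W] [NormedSpace ℂ W]
    [CompleteSpace W] (D : U →L[ℂ] V) (S : W →L[ℂ] U) (K : ℝ) (hDS : ∀ w, D (S w) = 0)
    (h : ∀ z, D z = 0 → ∀ ε > 0, ∃ w, ‖w‖ ≤ K * ‖z‖ ∧ ‖z - S w‖ ≤ ε) (z : U) (hz : D z = 0) :
    ∃ w, S w = z := by
  choose! φ hφ1 hφ2 using h
  let seq : ℕ → {z : U // D z = 0} := fun n => Nat.rec ⟨z, hz⟩
    (fun n zn => ⟨zn.1 - S (φ zn.1 ((1 / 2 : ℝ) ^ n)), by rw [map_sub, zn.2, hDS, sub_zero]⟩) n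
  have hseq : ∀ n, (seq (n + 1)).1 = (seq n).1 - S (φ (seq n).1 ((1 / 2 : ℝ) ^ n)) := fun n => rfl
  have hpos : ∀ n : ℕ, (0 : ℝ) < (1 / 2 : ℝ) ^ n := fun n => by positivity
  have hn : ∀ n, ‖(seq (n + 1)).1‖ ≤ (1 / 2 : ℝ) ^ n := fun n => by
    rw [hseq]; exact hφ2 _ (seq n).2 _ (hpos n)
  have hw : ∀ n, ‖φ (seq (n + 1)).1 ((1 / 2 : ℝ) ^ (n + 1))‖ ≤ |K| * (1 / 2 : ℝ) ^ n := fun n => by
    refine (hφ1 _ (seq (n + 1)).2 _ (hpos (n + 1))).trans ?_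
    refine (mul_le_mul_of_nonneg_right (le_abs_self K) (norm_nonneg _)).trans ?_
    exact mul_le_mul_of_nonneg_left (hn n) (abs_nonneg _)
  have hsum : Summable fun n => φ (seq n).1 ((1 / 2 : ℝ) ^ n) := by
    rw [← summable_nat_add_iff 1]
    refine Summable.of_norm_bounded ((summable_geometric_of_lt_one (by norm_num)
      (by norm_num : (1 / 2 : ℝ) < 1)).mul_left |K|) hw
  refine ⟨∑' n, φ (seq n).1 ((1 / 2 : ℝ) ^ n), ?_⟩
  have h1 : Tendsto (fun N => S (∑ n ∈ Finset.range N, φ (seq n).1 ((1 / 2 : ℝ) ^ n))) atTop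
      (𝓝 (S (∑' n, φ (seq n).1 ((1 / 2 : ℝ) ^ n)))) :=
    (S.continuous.tendsto _).comp hsum.hasSum.tendsto_sum_nat
  have h2 : ∀ N, S (∑ n ∈ Finset.range N, φ (seq n).1 ((1 / 2 : ℝ) ^ n)) = z - (seq N).1 := by
    intro N
    induction N with
    | zero => simp [seq]
    | succ N ih => rw [Finset.sum_range_succ, map_add, ih, hseq]; abel
  simp_rw [h2] at h1
  have h3 : Tendsto (fun N => (seq N).1) atTop (𝓝 0) := by
    rw [← tendsto_add_atTop_iff_nat 1]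
    exact squeeze_zero_norm hn (tendsto_pow_atTop_nhds_zero_of_lt_one (by norm_num) (by norm_num))
  have h4 : Tendsto (fun N => z - (seq N).1) atTop (𝓝 z) := by
    simpa using h3.const_sub z
  exact tendsto_nhds_unique h1 h4

theorem exact_abs {U1 : Type u} {U2 : Type v} {U3 : Type w}
    [NormedAddCommGroup U1] [NormedSpace ℂ U1]
    [NormedAddCommGroup U2] [NormedSpace ℂ U2] [NormedAddCommGroup U3] [NormedSpace ℂ U3]
    [CompleteSpace U3] (d1 : U2 →L[ℂ] U1) (d2 : U3 →L[ℂ] U2) (k : ℕ → U2 →L[ℂ] U3)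
    (k1 : ℕ → U1 →L[ℂ] U2) (a1 aw a3 a4 : ℝ) (hk : ∀ m, ‖k m‖ ≤ a4) (hk1 : ∀ m, ‖k1 m‖ ≤ a3)
    (hdd : ∀ w, d1 (d2 w) = 0)
    (H : ∀ z, d1 z = 0 → ∀ η > 0, ∃ (W : U2) (v : U3) (m : ℕ), ‖v‖ ≤ a1 * ‖z‖ ∧ ‖W‖ ≤ aw * ‖z‖ ∧
      ‖d2 v - W + z‖ ≤ η ∧ ‖d2 (k m W) + k1 m (d1 W) - W‖ ≤ η)
    (z : U2) (hz0 : d1 z = 0) : ∃ w, d2 w = z := by
  have p3 : 0 ≤ a3 := (norm_nonneg _).trans (hk1 0)
  have p4 : 0 ≤ a4 := (norm_nonneg _).trans (hk 0)
  refine exact_of_approx d1 d2 (a1 + a4 * aw) hdd ?_ z hz0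
  intro z hz0 ε hε
  have hBpos : 0 < 2 + a3 * ‖d1‖ := by positivity
  obtain ⟨W, v, m, hv, hW, h1, h2⟩ := H z hz0 (ε / (2 + a3 * ‖d1‖)) (by positivity)
  have hdW : ‖d1 W‖ ≤ ‖d1‖ * (ε / (2 + a3 * ‖d1‖)) := by
    have e1 : d1 W = - d1 (d2 v - W + z) := by rw [map_add, map_sub, hdd, hz0]; abel
    rw [e1, norm_neg]
    exact (d1.le_opNorm _).trans (mul_le_mul_of_nonneg_left h1 (norm_nonneg _))
  refine ⟨-v + k m W, ?_, ?_⟩
  · have e2 : ‖k m W‖ ≤ a4 * (aw * ‖z‖) :=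
      ((k m).le_opNorm _).trans (mul_le_mul (hk m) hW (norm_nonneg _) p4)
    refine (norm_add_le _ _).trans ?_
    rw [norm_neg]
    refine (add_le_add hv e2).trans (le_of_eq (by ring))
  · have e1 : z - d2 (-v + k m W) = (d2 v - W + z) - (d2 (k m W) + k1 m (d1 W) - W) +
        k1 m (d1 W) := by
      rw [map_add, map_neg]
      abel
    rw [e1]
    have e2 : ‖k1 m (d1 W)‖ ≤ a3 * (‖d1‖ * (ε / (2 + a3 * ‖d1‖))) :=
      ((k1 m).le_opNorm _).trans (mul_le_mul (hk1 m) hdW (norm_nonneg _) p3)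
    refine (norm_add_le _ _).trans ((add_le_add ((norm_sub_le _ _).trans
      (add_le_add h1 h2)) e2).trans (le_of_eq ?_))
    field_simp
    ring

theorem exists_small {E : Type u} [NormedAddCommGroup E] {s : ℕ → E}
    (h : Tendsto s atTop (𝓝 0)) {η : ℝ} (hη : 0 < η) : ∃ m, ‖s m‖ ≤ η := by
  obtain ⟨m, hm⟩ := (Metric.tendsto_atTop.1 h) η hη
  have := hm m le_rfl
  rw [dist_zero_right] at this
  exact ⟨m, this.le⟩

theorem norm_app_le {E : Type u} {F : Type v} {D : Type w} [NormedAddCommGroup E] [NormedSpace ℂ E]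
    [NormedAddCommGroup F] [NormedSpace ℂ F] [NormedAddCommGroup D] [NormedSpace ℂ D]
    (T : D →L[ℂ] E →L[ℂ] F) (δ : D) (K : ℝ) (hδ : ‖δ‖ ≤ K) (x : E) :
    ‖T δ x‖ ≤ (‖T‖ * K) * ‖x‖ :=
  ((T δ).le_opNorm x).trans (mul_le_mul_of_nonneg_right
    ((T.le_opNorm δ).trans (mul_le_mul_of_nonneg_left hδ (norm_nonneg _))) (norm_nonneg _))

theorem norm_app_le' {E : Type u} {F : Type v} {D : Type w} {C : Type} [NormedAddCommGroup E]
    [NormedSpace ℂ E] [NormedAddCommGroup C] [NormedSpace ℂ C]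
    [NormedAddCommGroup F] [NormedSpace ℂ F] [NormedAddCommGroup D] [NormedSpace ℂ D]
    (T : C →L[ℂ] E →L[ℂ] F) (L : D →L[ℂ] E) (δ : C) (K : ℝ) (hδ : ‖δ‖ ≤ K) (x : D) :
    ‖T δ (L x)‖ ≤ (‖T‖ * K * ‖L‖) * ‖x‖ := by
  have hK : 0 ≤ K := (norm_nonneg _).trans hδ
  refine (norm_app_le T δ K hδ (L x)).trans ?_
  rw [mul_assoc (‖T‖ * K)]
  exact mul_le_mul_of_nonneg_left (L.le_opNorm x) (by positivity)

section
variable {A : Type} [NonUnitalNormedRing A] [NormedSpace ℂ A] [IsScalarTower ℂ A A]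
  [SMulCommClass ℂ A A] [CompleteSpace A]
variable {Y : Type u} [NormedAddCommGroup Y] [NormedSpace ℂ Y] [CompleteSpace Y]
variable {R : A →L[ℂ] Y →L[ℂ] Y} {G : PT A Y →L[ℂ] Y}

/-- error term of `h1` in higher degrees -/
noncomputable def Eop (R : A →L[ℂ] Y →L[ℂ] Y) (G : PT A Y →L[ℂ] Y) (δ : PT A A) :
    PT A (PT A Y) →L[ℂ] PT A (PT A Y) :=
  (dd (Rs (Rs R)) (Gs (Gs G))).comp (ho δ) + (ho δ).comp (dd (Rs R) (Gs G)) -
    (hz (Rs R) δ).comp (lift (Rs R)) - (ho δ).comp (lift (Rs R)) + ContinuousLinearMap.id ℂ _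

theorem Eop_apply (δ : PT A A) (u : PT A (PT A Y)) :
    Eop R G δ u = dd (Rs (Rs R)) (Gs (Gs G)) (ho δ u) + ho δ (dd (Rs R) (Gs G) u) -
      hz (Rs R) δ (lift (Rs R) u) - ho δ (lift (Rs R) u) + u := rfl

theorem bdd_of_clm {E : Type u} {F : Type v} [NormedAddCommGroup E] [NormedSpace ℂ E]
    [NormedAddCommGroup F] [NormedSpace ℂ F] (T : PT A A →L[ℂ] E →L[ℂ] F) (g : Good A) :
    ∀ m, ‖T (g.δ m)‖ ≤ ‖T‖ * g.K := fun m =>
  (T.le_opNorm _).trans (mul_le_mul_of_nonneg_left (g.hK m) (norm_nonneg _))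

theorem exists_norm_Eop_le (g : Good A) : ∃ K, ∀ m, ‖Eop R G (g.δ m)‖ ≤ K := by
  refine ⟨‖dd (Rs (Rs R)) (Gs (Gs G))‖ *
    (‖(ho : PT A A →L[ℂ] PT A (PT A Y) →L[ℂ] _)‖ * g.K) +
    (‖(ho : PT A A →L[ℂ] PT A Y →L[ℂ] _)‖ * g.K) * ‖dd (Rs R) (Gs G)‖ +
    (‖hz (Rs R)‖ * g.K) * ‖lift (Rs R)‖ +
    (‖(ho : PT A A →L[ℂ] PT A Y →L[ℂ] _)‖ * g.K) * ‖lift (Rs R)‖ + 1, fun m => ?_⟩
  have b1 := bdd_of_clm (ho : PT A A →L[ℂ] PT A (PT A Y) →L[ℂ] _) g m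
  have b2 := bdd_of_clm (ho : PT A A →L[ℂ] PT A Y →L[ℂ] _) g m
  have b3 := bdd_of_clm (hz (Rs R)) g m
  refine (norm_add_le _ _).trans (add_le_add ((norm_sub_le _ _).trans (add_le_add
    ((norm_sub_le _ _).trans (add_le_add ((norm_add_le _ _).trans (add_le_add ?_ ?_)) ?_)) ?_))
    ContinuousLinearMap.norm_id_le)
  · exact (ContinuousLinearMap.opNorm_comp_le _ _).trans
      (mul_le_mul_of_nonneg_left b1 (norm_nonneg _))
  · exact (ContinuousLinearMap.opNorm_comp_le _ _).trans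
      (mul_le_mul_of_nonneg_right b2 (norm_nonneg _))
  · exact (ContinuousLinearMap.opNorm_comp_le _ _).trans
      (mul_le_mul_of_nonneg_right b3 (norm_nonneg _))
  · exact (ContinuousLinearMap.opNorm_comp_le _ _).trans
      (mul_le_mul_of_nonneg_right b2 (norm_nonneg _))

theorem tendsto_Eop (g : Good A) (h : Lw R G) (u : PT A (PT A Y)) :
    Tendsto (fun m => Eop R G (g.δ m) u) atTop (𝓝 0) := by
  obtain ⟨K, hK⟩ := exists_norm_Eop_le (R := R) (G := G) g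
  refine PT.tendsto _ K hK (fun a t => ?_) u
  refine PT.tendsto (fun m => (Eop R G (g.δ m)).comp (tau A (PT A Y) a))
    (K * ‖tau A (PT A Y) a‖) (fun m => (ContinuousLinearMap.opNorm_comp_le _ _).trans
      (mul_le_mul_of_nonneg_right (hK m) (norm_nonneg _))) (fun b y => ?_) t
  have h1 : ∀ m, ((Eop R G (g.δ m)).comp (tau A (PT A Y) a)) (tau A Y b y) =
      (tau A (PT A Y) a (tau A Y b y) - tau A (PT A Y) (a * pr (g.δ m)) (tau A Y b y)) +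
      lift ((tau A (PT A Y)).bilinearComp (ContinuousLinearMap.id ℂ A) ((tau A Y).flip y))
        (Mop a b (g.δ m)) := by
    intro m
    rw [ContinuousLinearMap.comp_apply, Eop_apply, ho_id h]
    abel
  simp_rw [h1]
  have h2 : Tendsto (fun m => tau A (PT A Y) (a * pr (g.δ m)) (tau A Y b y)) atTop
      (𝓝 (tau A (PT A Y) a (tau A Y b y))) := by
    have hc : Continuous fun c : A => tau A (PT A Y) c (tau A Y b y) := by fun_prop
    exact (hc.tendsto a).comp (g.unit a)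
  have h3 : Tendsto (fun m => lift ((tau A (PT A Y)).bilinearComp (ContinuousLinearMap.id ℂ A)
      ((tau A Y).flip y)) (Mop a b (g.δ m))) atTop (𝓝 0) := by
    have := ((lift ((tau A (PT A Y)).bilinearComp (ContinuousLinearMap.id ℂ A)
      ((tau A Y).flip y))).continuous.tendsto 0).comp (g.comm a b)
    rwa [map_zero] at this
  simpa using (h2.const_sub (tau A (PT A Y) a (tau A Y b y))).add h3

/-- exactness in degree at least two -/
theorem exact_high (g : Good A) (h : Lw R G) (z : PT A (PT A Y)) (hz0 : dd (Rs R) (Gs G) z = 0) :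
    ∃ w, dd (Rs (Rs R)) (Gs (Gs G)) w = z := by
  refine exact_abs (dd (Rs R) (Gs G)) (dd (Rs (Rs R)) (Gs (Gs G)))
    (fun m => hz (Rs (Rs R)) (g.δ m)) (fun m => hz (Rs R) (g.δ m))
    (‖(ho : PT A A →L[ℂ] PT A (PT A Y) →L[ℂ] _)‖ * g.K)
    (‖hz (Rs R)‖ * g.K * ‖lift (Rs R)‖ +
      ‖(ho : PT A A →L[ℂ] PT A Y →L[ℂ] _)‖ * g.K * ‖lift (Rs R)‖)
    (‖hz (Rs R)‖ * g.K) (‖hz (Rs (Rs R))‖ * g.K)
    (bdd_of_clm (hz (Rs (Rs R))) g) (bdd_of_clm (hz (Rs R)) g)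
    (dd_dd h.step) ?_ z hz0
  intro z hz0 η hη
  obtain ⟨m, hm⟩ := exists_small (tendsto_Eop g h z) hη
  have hess : Ess g (Rs R) (Gs G) (hz (Rs R) (g.δ m) (lift (Rs R) z) +
      ho (g.δ m) (lift (Rs R) z)) := (ess_hz_D g h.step _ _).add (ess_ho_D g h _ _)
  obtain ⟨m', hm'⟩ := exists_small hess hη
  rw [Err_apply] at hm'
  rw [Eop_apply, hz0, map_zero, add_zero] at hm
  refine ⟨_, ho (g.δ m) z, m', norm_app_le _ _ _ (g.hK m) _, ?_, ?_, hm'⟩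
  · refine (norm_add_le _ _).trans ?_
    rw [add_mul]
    exact add_le_add (norm_app_le' _ _ _ _ (g.hK m) _) (norm_app_le' _ _ _ _ (g.hK m) _)
  · rwa [← sub_sub]

end

end H601H
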