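import Mathlib

/-!
Hochschild homology of Banach algebras with coefficients in Banach bimodules: definitions by the
universal property of the completed projective tensor product.
-/

set_option autoImplicit false

namespace H601H.Hoch

universe u

/-- A complex Banach space. -/
structure BSpace where
  S : Type u
  [ng : NormedAddCommGroup S]
  [ns : NormedSpace ℂ S]
  [cs : CompleteSpace S]

attribute [instance] BSpace.ng BSpace.ns BSpace.cs

/-- A complex Banach algebra, not assumed to have a unit. -/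
structure BAlg where
  S : Type
  [nr : NonUnitalNormedRing S]
  [ns : NormedSpace ℂ S]
  [st : IsScalarTower ℂ S S]
  [sc : SMulCommClass ℂ S S]
  [cs : CompleteSpace S]

attribute [instance] BAlg.nr BAlg.ns BAlg.st BAlg.sc BAlg.cs

/-- The `(n+1)`-linear maps `X × A × ⋯ × A → F` (`n` factors `A`). -/
def Multi (A : BAlg) (X F : BSpace.{u}) (n : ℕ) : Type u :=
  X.S →ₗ[ℂ] MultilinearMap ℂ (fun _ : Fin n => A.S) F.S

/-- The value `φ x a`. -/
def eval {A : BAlg} {X F : BSpace.{u}} {n : ℕ}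
    (φ : X.S →ₗ[ℂ] MultilinearMap ℂ (fun _ : Fin n => A.S) F.S) (x : X.S)
    (a : Fin n → A.S) : F.S := φ x a

/-- The value `φ (x, a₁, …, aₙ)`. -/
def Multi.app {A : BAlg} {X F : BSpace.{u}} {n : ℕ} (φ : Multi A X F n) (x : X.S)
    (a : Fin n → A.S) : F.S := eval φ x a

/-- `‖φ (x, a₁, …, aₙ)‖ ≤ K ‖x‖ ‖a₁‖ ⋯ ‖aₙ‖`. -/
def Multi.BoundedBy {A : BAlg} {X F : BSpace.{u}} {n : ℕ} (φ : Multi A X F n) (K : ℝ) : Prop :=
  ∀ (x : X.S) (a : Fin n → A.S), ‖φ.app x a‖ ≤ K * (‖x‖ * ∏ i, ‖a i‖)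

/-- A Banach bimodule structure on `X` over `A`: bounded bilinear actions `l a x = a · x` and
`r x a = x · a`, associative and commuting. -/
structure Bimod (A : BAlg) (X : BSpace.{u}) where
  l : A.S → X.S → X.S
  r : X.S → A.S → X.S
  l_bilin : IsBoundedBilinearMap ℂ fun q : A.S × X.S => l q.1 q.2
  r_bilin : IsBoundedBilinearMap ℂ fun q : X.S × A.S => r q.1 q.2
  l_mul : ∀ (a b : A.S) (x : X.S), l (a * b) x = l a (l b x)
  r_mul : ∀ (x : X.S) (a b : A.S), r x (a * b) = r (r x a) b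
  l_r : ∀ (a : A.S) (x : X.S) (b : A.S), r (l a x) b = l a (r x b)

/-- `(C, τ)` is the completed projective tensor product of the Banach space `X` with `n` copies of
`A`: `τ (x; a₁, …, aₙ) = x ⊗ a₁ ⊗ ⋯ ⊗ aₙ` is an `(n+1)`-linear map of norm at most `1` into the
Banach space `C`, and every bounded `(n+1)`-linear map `φ` into a Banach space `F` factors through
`τ` by a unique bounded linear map, with a norm at most that of `φ`. -/
structure IsProjTensor {A : BAlg} {X C : BSpace.{u}} {n : ℕ} (τ : Multi A X C n) : Prop where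
  bound : τ.BoundedBy 1
  lift : ∀ (F : BSpace.{u}) (φ : Multi A X F n) (K : ℝ), 0 ≤ K → φ.BoundedBy K →
    ∃ g : C.S →L[ℂ] F.S, (∀ x a, g (τ.app x a) = φ.app x a) ∧ ∀ c, ‖g c‖ ≤ K * ‖c‖
  ext : ∀ (F : BSpace.{u}) (f g : C.S →L[ℂ] F.S), (∀ x a, f (τ.app x a) = g (τ.app x a)) → f = g

/-- `d (x ⊗ a₁ ⊗ ⋯ ⊗ a_{n+1}) = x·a₁ ⊗ a₂ ⊗ ⋯ ⊗ a_{n+1} + ∑ (-1)^i x ⊗ ⋯ ⊗ a_i a_{i+1} ⊗ ⋯
+ (-1)^{n+1} a_{n+1}·x ⊗ a₁ ⊗ ⋯ ⊗ a_n`, the sum over `1 ≤ i ≤ n`. -/
def IsDifferential {A : BAlg} {X C' C : BSpace.{u}} {n : ℕ} (M : Bimod A X)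
    (τ' : Multi A X C' (n + 1)) (τ : Multi A X C n) (d : C'.S →L[ℂ] C.S) : Prop :=
  ∀ (x : X.S) (a : Fin (n + 1) → A.S),
    d (τ'.app x a) =
      τ.app (M.r x (a 0)) (Fin.tail a)
      + ∑ i : Fin n, (-1 : ℂ) ^ ((i : ℕ) + 1) • τ.app x (Fin.contractNth i.castSucc (· * ·) a)
      + (-1 : ℂ) ^ (n + 1) • τ.app (M.l (a (Fin.last n)) x) (Fin.init a)

/-- The Hochschild chain complex of the bimodule `M` over `A`: Banach spaces
`C n = X ⊗̂ A ⊗̂ ⋯ ⊗̂ A` (`n` copies of `A`) and the differentials `d n : C (n+1) → C n`. -/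
structure HochschildComplex {A : BAlg} {X : BSpace.{u}} (M : Bimod A X) where
  C : ℕ → BSpace.{u}
  τ : ∀ n, Multi A X (C n) n
  isTensor : ∀ n, IsProjTensor (τ n)
  d : ∀ n, (C (n + 1)).S →L[ℂ] (C n).S
  isDiff : ∀ n, IsDifferential M (τ (n + 1)) (τ n) (d n)

/-- `H_k(A, X) = 0` for `k = j + 1`, that is `Ker (d j) = Im (d (j+1))`: an element of `C (j+1)` is
killed by `d j` exactly when it is in the image of `d (j+1)`. -/
def HomologyVanishes {A : BAlg} {X : BSpace.{u}} {M : Bimod A X} (H : HochschildComplex M)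
    (j : ℕ) : Prop :=
  ∀ z : (H.C (j + 1)).S, H.d j z = 0 ↔ ∃ w : (H.C (j + 2)).S, H.d (j + 1) w = z

/-- Amenability of a Banach algebra `A`: for every Banach `A`-bimodule `X`, `H_1(A, X) = 0` and
`H_0(A, X) = C 0 / Im (d 0)` is Hausdorff, i.e. `Im (d 0)` is closed. -/
def Amenable (A : BAlg) : Prop :=
  ∀ (X : BSpace.{u}) (M : Bimod A X) (H : HochschildComplex M),
    HomologyVanishes H 0 ∧ IsClosed (Set.range (H.d 0))

end H601H.Hoch
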