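import Pool.Agent.H601H.PT

/-!
Operators between iterated projective tensor products: the ingredients of the Hochschild
differential and of the homotopies.
-/

set_option autoImplicit false
set_option maxSynthPendingDepth 3
set_option linter.unusedSectionVars false
set_option linter.deprecated false

namespace H601H
open Filter Topology

universe u v w

section tm
variable {A : Type} [NonUnitalNormedRing A] [NormedSpace ℂ A] [IsScalarTower ℂ A A]
  [SMulCommClass ℂ A A] [CompleteSpace A]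
variable {Y : Type u} [NormedAddCommGroup Y] [NormedSpace ℂ Y] [CompleteSpace Y]
variable {Z : Type v} [NormedAddCommGroup Z] [NormedSpace ℂ Z] [CompleteSpace Z]

/-- `id ⊗ T`. -/
noncomputable def tmap (T : Y →L[ℂ] Z) : PT A Y →L[ℂ] PT A Z :=
  lift (((ContinuousLinearMap.compL ℂ Y Z (PT A Z)).flip T).comp (tau A Z))

@[simp] theorem tmap_tau (T : Y →L[ℂ] Z) (a : A) (y : Y) :
    tmap T (tau A Y a y) = tau A Z a (T y) := by
  rw [tmap, lift_tau]; rfl

theorem norm_tmap_le (T : Y →L[ℂ] Z) : ‖(tmap T : PT A Y →L[ℂ] PT A Z)‖ ≤ ‖T‖ := by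
  refine norm_lift_le' _ (norm_nonneg _) fun a y => ?_
  show ‖tau A Z a (T y)‖ ≤ _
  refine (norm_tau_le _ _).trans ?_
  calc ‖a‖ * ‖T y‖ ≤ ‖a‖ * (‖T‖ * ‖y‖) := mul_le_mul_of_nonneg_left (T.le_opNorm y) (norm_nonneg _)
    _ = _ := by ring

/-- `T ⊗ id`. -/
noncomputable def fmap (T : A →L[ℂ] A) : PT A Y →L[ℂ] PT A Y := lift ((tau A Y).comp T)

@[simp] theorem fmap_tau (T : A →L[ℂ] A) (a : A) (y : Y) :
    fmap T (tau A Y a y) = tau A Y (T a) y := by
  rw [fmap, lift_tau]; rfl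

theorem norm_fmap_le (T : A →L[ℂ] A) : ‖(fmap T : PT A Y →L[ℂ] PT A Y)‖ ≤ ‖T‖ := by
  refine norm_lift_le' _ (norm_nonneg _) fun a y => ?_
  show ‖tau A Y (T a) y‖ ≤ _
  refine (norm_tau_le _ _).trans ?_
  exact mul_le_mul_of_nonneg_right (T.le_opNorm a) (norm_nonneg _)

/-- `R'_b = id ⊗ R_b`. -/
noncomputable def Rs (R : A →L[ℂ] Y →L[ℂ] Y) : A →L[ℂ] PT A Y →L[ℂ] PT A Y :=
  LinearMap.mkContinuous
    { toFun := fun b => (tmap (R b) : PT A Y →L[ℂ] PT A Y)
      map_add' := fun b c => by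
        refine PT.ext_clm fun a y => ?_
        rw [ContinuousLinearMap.add_apply, tmap_tau, tmap_tau, tmap_tau, map_add,
          ContinuousLinearMap.add_apply, map_add]
      map_smul' := fun k b => by
        refine PT.ext_clm fun a y => ?_
        rw [ContinuousLinearMap.smul_apply, tmap_tau, tmap_tau, map_smul,
          ContinuousLinearMap.smul_apply, map_smul]
        rfl }
    ‖R‖ (fun b => (norm_tmap_le _).trans (R.le_opNorm b))

@[simp] theorem Rs_tau (R : A →L[ℂ] Y →L[ℂ] Y) (b a : A) (y : Y) :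
    Rs R b (tau A Y a y) = tau A Y a (R b y) := tmap_tau _ _ _

/-- `(b, c ⊗ y) ↦ bc ⊗ y`. -/
noncomputable def lm : A →L[ℂ] PT A Y →L[ℂ] PT A Y :=
  LinearMap.mkContinuous
    { toFun := fun b => fmap (ContinuousLinearMap.mul ℂ A b)
      map_add' := fun b c => by
        refine PT.ext_clm fun a y => ?_
        rw [ContinuousLinearMap.add_apply, fmap_tau, fmap_tau, fmap_tau, map_add,
          ContinuousLinearMap.add_apply, map_add, ContinuousLinearMap.add_apply]
      map_smul' := fun k b => by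
        refine PT.ext_clm fun a y => ?_
        rw [ContinuousLinearMap.smul_apply, fmap_tau, fmap_tau, map_smul,
          ContinuousLinearMap.smul_apply, map_smul, ContinuousLinearMap.smul_apply]
        rfl }
    1 (fun b => by
      rw [one_mul]
      exact (norm_fmap_le _).trans (ContinuousLinearMap.opNorm_mul_apply_le ℂ A b))

@[simp] theorem lm_tau (b c : A) (y : Y) : lm b (tau A Y c y) = tau A Y (b * c) y := fmap_tau _ _ _

/-- The next `G`. -/
noncomputable def Gs (G : PT A Y →L[ℂ] Y) : PT A (PT A Y) →L[ℂ] PT A Y :=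
  -(lift lm) - tmap G

theorem Gs_tau (G : PT A Y →L[ℂ] Y) (a : A) (u : PT A Y) :
    Gs G (tau A (PT A Y) a u) = - lm a u - tau A Y a (G u) := by
  rw [Gs, ContinuousLinearMap.sub_apply, ContinuousLinearMap.neg_apply, lift_tau, tmap_tau]

theorem Gs_tau_tau (G : PT A Y →L[ℂ] Y) (a b : A) (y : Y) :
    Gs G (tau A (PT A Y) a (tau A Y b y)) = - tau A Y (a * b) y - tau A Y a (G (tau A Y b y)) := by
  rw [Gs_tau, lm_tau]

/-- The differential. -/
noncomputable def dd (R : A →L[ℂ] Y →L[ℂ] Y) (G : PT A Y →L[ℂ] Y) : PT A Y →L[ℂ] Y := lift R + G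

theorem dd_apply (R : A →L[ℂ] Y →L[ℂ] Y) (G : PT A Y →L[ℂ] Y) (u : PT A Y) :
    dd R G u = lift R u + G u := rfl

theorem dd_tau (R : A →L[ℂ] Y →L[ℂ] Y) (G : PT A Y →L[ℂ] Y) (a : A) (y : Y) :
    dd R G (tau A Y a y) = R a y + G (tau A Y a y) := by rw [dd_apply, lift_tau]

theorem ext2 {f g : PT A (PT A Y) →L[ℂ] Z}
    (h : ∀ a b y, f (tau A (PT A Y) a (tau A Y b y)) = g (tau A (PT A Y) a (tau A Y b y))) :
    f = g := by
  refine PT.ext_clm fun a u => ?_
  have : f.comp (tau A (PT A Y) a) = g.comp (tau A (PT A Y) a) := PT.ext_clm fun b y => h a b y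
  exact congrArg (fun k => k u) this

/-- The homotopy `h0`: `(p ⊗ q, y) ↦ q ⊗ y p`. -/
noncomputable def hz (R : A →L[ℂ] Y →L[ℂ] Y) : PT A A →L[ℂ] Y →L[ℂ] PT A Y :=
  lift (((((ContinuousLinearMap.compL ℂ Y Y (PT A Y)).comp (tau A Y)).flip).comp R))

@[simp] theorem hz_tau (R : A →L[ℂ] Y →L[ℂ] Y) (p q : A) (y : Y) :
    hz R (tau A A p q) y = tau A Y q (R p y) := by
  rw [hz, lift_tau]; rfl

/-- for fixed `p, q`: `a ⊗ y ↦ ap ⊗ (q ⊗ y)` -/
noncomputable def ho0 (p q : A) : PT A Y →L[ℂ] PT A (PT A Y) :=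
  lift (((ContinuousLinearMap.compL ℂ Y (PT A Y) (PT A (PT A Y))).flip (tau A Y q)).comp
    ((tau A (PT A Y)).comp ((ContinuousLinearMap.mul ℂ A).flip p)))

@[simp] theorem ho0_tau (p q a : A) (y : Y) :
    ho0 p q (tau A Y a y) = tau A (PT A Y) (a * p) (tau A Y q y) := by
  rw [ho0, lift_tau]; rfl

theorem norm_ho0_le (p q : A) : ‖(ho0 p q : PT A Y →L[ℂ] PT A (PT A Y))‖ ≤ 1 * ‖p‖ * ‖q‖ := by
  refine norm_lift_le' _ (by positivity) fun a y => ?_
  show ‖tau A (PT A Y) (a * p) (tau A Y q y)‖ ≤ _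
  refine (norm_tau_le _ _).trans ?_
  calc ‖a * p‖ * ‖tau A Y q y‖ ≤ (‖a‖ * ‖p‖) * (‖q‖ * ‖y‖) :=
        mul_le_mul (norm_mul_le _ _) (norm_tau_le _ _) (norm_nonneg _) (by positivity)
    _ = _ := by ring

/-- The homotopy `h1`: `(p ⊗ q, a ⊗ y) ↦ ap ⊗ (q ⊗ y)`. -/
noncomputable def ho : PT A A →L[ℂ] PT A Y →L[ℂ] PT A (PT A Y) :=
  lift (LinearMap.mkContinuous₂
    (LinearMap.mk₂ ℂ (fun p q => (ho0 p q : PT A Y →L[ℂ] PT A (PT A Y)))
      (fun p p' q => PT.ext_clm fun a y => by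
        rw [ContinuousLinearMap.add_apply, ho0_tau, ho0_tau, ho0_tau, mul_add, map_add,
          ContinuousLinearMap.add_apply])
      (fun c p q => PT.ext_clm fun a y => by
        rw [ContinuousLinearMap.smul_apply, ho0_tau, ho0_tau, mul_smul_comm, map_smul,
          ContinuousLinearMap.smul_apply])
      (fun p q q' => PT.ext_clm fun a y => by
        rw [ContinuousLinearMap.add_apply, ho0_tau, ho0_tau, ho0_tau, map_add,
          ContinuousLinearMap.add_apply, map_add])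
      (fun c p q => PT.ext_clm fun a y => by
        rw [ContinuousLinearMap.smul_apply, ho0_tau, ho0_tau, map_smul,
          ContinuousLinearMap.smul_apply, map_smul]))
    1 (fun p q => norm_ho0_le p q))

@[simp] theorem ho_tau (p q a : A) (y : Y) :
    ho (tau A A p q) (tau A Y a y) = tau A (PT A Y) (a * p) (tau A Y q y) := by
  rw [ho, lift_tau]
  exact ho0_tau p q a y

/-- the product `PT A A → A` -/
noncomputable def pr : PT A A →L[ℂ] A := lift (ContinuousLinearMap.mul ℂ A)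

@[simp] theorem pr_tau (p q : A) : pr (tau A A p q) = p * q := by rw [pr, lift_tau]; rfl

/-- `p ⊗ q ↦ ap ⊗ qb - abp ⊗ q`. -/
noncomputable def Mop (a b : A) : PT A A →L[ℂ] PT A A :=
  (lm a).comp (tmap ((ContinuousLinearMap.mul ℂ A).flip b)) - lm (a * b)

theorem Mop_tau (a b p q : A) :
    Mop a b (tau A A p q) = tau A A (a * p) (q * b) - tau A A (a * b * p) q := by
  rw [Mop, ContinuousLinearMap.sub_apply, ContinuousLinearMap.comp_apply, tmap_tau, lm_tau, lm_tau]
  rfl

end tm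

end H601H
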