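import Mathlib

/-!
The completed projective tensor product of two complex Banach spaces, realised as the closed span
of the evaluations in the dual of the space of bounded bilinear forms.
-/

set_option autoImplicit false
set_option maxSynthPendingDepth 3

namespace H601H
open Filter Topology

universe u v w

/-- Evaluation of bounded bilinear forms at a pair. -/
noncomputable def evL (A : Type w) (Y : Type u) [NormedAddCommGroup A] [NormedSpace ℂ A]
    [NormedAddCommGroup Y] [NormedSpace ℂ Y] (a : A) (y : Y) :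
    (A →L[ℂ] Y →L[ℂ] ℂ) →L[ℂ] ℂ :=
  (ContinuousLinearMap.apply ℂ ℂ y).comp (ContinuousLinearMap.apply ℂ (Y →L[ℂ] ℂ) a)

/-- The span of the evaluations, closed. -/
noncomputable def PTs (A : Type w) (Y : Type u) [NormedAddCommGroup A] [NormedSpace ℂ A]
    [NormedAddCommGroup Y] [NormedSpace ℂ Y] : Submodule ℂ ((A →L[ℂ] Y →L[ℂ] ℂ) →L[ℂ] ℂ) :=
  (Submodule.span ℂ (Set.range fun p : A × Y => evL A Y p.1 p.2)).topologicalClosure

/-- The completed projective tensor product `A ⊗̂ Y` of two complex Banach spaces: the closed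
linear span, in the dual of the Banach space of bounded bilinear forms on `A × Y`, of the
evaluations `a ⊗ y : B ↦ B a y`. -/
def PT (A : Type w) (Y : Type u) [NormedAddCommGroup A] [NormedSpace ℂ A]
    [NormedAddCommGroup Y] [NormedSpace ℂ Y] : Type (max w u) := ↥(PTs A Y)

section
variable {A : Type w} {Y : Type u} [NormedAddCommGroup A] [NormedSpace ℂ A]
    [NormedAddCommGroup Y] [NormedSpace ℂ Y]

noncomputable instance : NormedAddCommGroup (PT A Y) := inferInstanceAs (NormedAddCommGroup ↥(PTs A Y))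
noncomputable instance : NormedSpace ℂ (PT A Y) := inferInstanceAs (NormedSpace ℂ ↥(PTs A Y))
instance : CompleteSpace (PT A Y) :=
  (Submodule.isClosed_topologicalClosure
    (Submodule.span ℂ (Set.range fun p : A × Y => evL A Y p.1 p.2))).completeSpace_coe

theorem evL_apply (a : A) (y : Y) (B : A →L[ℂ] Y →L[ℂ] ℂ) : evL A Y a y B = B a y := rfl

theorem evL_mem (a : A) (y : Y) : evL A Y a y ∈ PTs A Y :=
  Submodule.le_topologicalClosure _ (Submodule.subset_span ⟨(a, y), rfl⟩)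

theorem norm_evL_le (a : A) (y : Y) : ‖evL A Y a y‖ ≤ 1 * ‖a‖ * ‖y‖ := by
  refine ContinuousLinearMap.opNorm_le_bound _ (by positivity) fun B => ?_
  rw [evL_apply]
  calc ‖B a y‖ ≤ ‖B‖ * ‖a‖ * ‖y‖ := B.le_opNorm₂ a y
    _ = 1 * ‖a‖ * ‖y‖ * ‖B‖ := by ring

variable (A Y) in
/-- The elementary tensor `a ⊗ y`. -/
noncomputable def tau : A →L[ℂ] Y →L[ℂ] PT A Y :=
  LinearMap.mkContinuous₂
    (LinearMap.mk₂ ℂ (fun a y => ((⟨evL A Y a y, evL_mem a y⟩ : ↥(PTs A Y)) : PT A Y))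
      (fun a a' y => Subtype.ext (by ext B; show B (a + a') y = B a y + B a' y; simp))
      (fun c a y => Subtype.ext (by ext B; show B (c • a) y = c • B a y; simp))
      (fun a y y' => Subtype.ext (by ext B; show B a (y + y') = B a y + B a y'; simp))
      (fun c a y => Subtype.ext (by ext B; show B a (c • y) = c • B a y; simp)))
    1 (fun a y => norm_evL_le a y)

theorem norm_tau_le (a : A) (y : Y) : ‖tau A Y a y‖ ≤ ‖a‖ * ‖y‖ := by
  have h := norm_evL_le a y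
  rw [one_mul] at h
  exact h

theorem PT.induction {p : PT A Y → Prop} (hc : IsClosed {u | p u}) (h0 : p 0)
    (hadd : ∀ u v, p u → p v → p (u + v)) (ht : ∀ a y, p (tau A Y a y)) (u : PT A Y) : p u := by
  have key : ∀ x ∈ Submodule.span ℂ (Set.range fun p : A × Y => evL A Y p.1 p.2),
      ∀ c : ℂ, ∀ h : x ∈ PTs A Y, p (c • (⟨x, h⟩ : ↥(PTs A Y)) : ↥(PTs A Y)) := by
    intro x hx
    induction hx using Submodule.span_induction with
    | mem x hx =>
      obtain ⟨⟨a, y⟩, rfl⟩ := hx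
      intro c h
      have : (c • (⟨evL A Y a y, h⟩ : ↥(PTs A Y)) : ↥(PTs A Y)) = tau A Y (c • a) y := by
        rw [map_smul]; rfl
      rw [this]; exact ht _ _
    | zero =>
      intro c h
      have : (c • (⟨0, h⟩ : ↥(PTs A Y)) : ↥(PTs A Y)) = (0 : PT A Y) := by
        have h2 : (⟨0, h⟩ : ↥(PTs A Y)) = 0 := rfl
        rw [h2, smul_zero]; rfl
      rw [this]; exact h0
    | add x y hx hy ihx ihy =>
      intro c h
      have hx' : x ∈ PTs A Y := Submodule.le_topologicalClosure _ hx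
      have hy' : y ∈ PTs A Y := Submodule.le_topologicalClosure _ hy
      have := hadd _ _ (ihx c hx') (ihy c hy')
      have h2 : (c • (⟨x + y, h⟩ : ↥(PTs A Y)) : ↥(PTs A Y)) =
          (c • (⟨x, hx'⟩ : ↥(PTs A Y)) : ↥(PTs A Y)) + (c • (⟨y, hy'⟩ : ↥(PTs A Y)) : ↥(PTs A Y)) := by
        rw [← smul_add]; rfl
      rw [h2]; exact this
    | smul a x hx ih =>
      intro c h
      have hx' : x ∈ PTs A Y := Submodule.le_topologicalClosure _ hx
      have := ih (c * a) hx'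
      have h2 : (c • (⟨a • x, h⟩ : ↥(PTs A Y)) : ↥(PTs A Y)) =
          ((c * a) • (⟨x, hx'⟩ : ↥(PTs A Y)) : ↥(PTs A Y)) := by
        rw [mul_smul]; rfl
      rw [h2]; exact this
  obtain ⟨x, hx⟩ := u
  have hx' : x ∈ closure (Submodule.span ℂ (Set.range fun p : A × Y => evL A Y p.1 p.2) :
      Set ((A →L[ℂ] Y →L[ℂ] ℂ) →L[ℂ] ℂ)) := hx
  obtain ⟨s, hs, hlim⟩ := mem_closure_iff_seq_limit.1 hx'
  have hs' : ∀ n, s n ∈ PTs A Y := fun n => Submodule.le_topologicalClosure _ (hs n)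
  have hlim' : Tendsto (fun n => ((⟨s n, hs' n⟩ : ↥(PTs A Y)) : PT A Y)) atTop
      (𝓝 ((⟨x, hx⟩ : ↥(PTs A Y)) : PT A Y)) := by
    rw [show (𝓝 ((⟨x, hx⟩ : ↥(PTs A Y)) : PT A Y)) = 𝓝 (⟨x, hx⟩ : ↥(PTs A Y)) from rfl]
    exact tendsto_subtype_rng.2 hlim
  refine hc.mem_of_tendsto hlim' (Eventually.of_forall fun n => ?_)
  have := key (s n) (hs n) 1 (hs' n)
  rw [one_smul] at this
  exact this

theorem PT.ext_clm {Z : Type v} [NormedAddCommGroup Z] [NormedSpace ℂ Z] {f g : PT A Y →L[ℂ] Z}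
    (h : ∀ a y, f (tau A Y a y) = g (tau A Y a y)) : f = g := by
  ext u
  refine PT.induction (p := fun u => f u = g u) (isClosed_eq f.continuous g.continuous)
    (by simp) (fun u v hu hv => by simp [hu, hv]) h u

section lift
variable {Z : Type v} [NormedAddCommGroup Z] [NormedSpace ℂ Z]

/-- `ζ ↦ ζ ∘ B`. -/
noncomputable def pre (B : A →L[ℂ] Y →L[ℂ] Z) : (Z →L[ℂ] ℂ) →L[ℂ] (A →L[ℂ] Y →L[ℂ] ℂ) :=
  ((ContinuousLinearMap.compL ℂ A (Y →L[ℂ] Z) (Y →L[ℂ] ℂ)).flip B).comp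
    (ContinuousLinearMap.compL ℂ Y Z ℂ)

theorem pre_apply (B : A →L[ℂ] Y →L[ℂ] Z) (ζ : Z →L[ℂ] ℂ) (a : A) (y : Y) :
    pre B ζ a y = ζ (B a y) := rfl

theorem norm_pre_le (B : A →L[ℂ] Y →L[ℂ] Z) : ‖pre B‖ ≤ ‖B‖ := by
  refine ContinuousLinearMap.opNorm_le_bound _ (norm_nonneg _) fun ζ => ?_
  refine ContinuousLinearMap.opNorm_le_bound _ (by positivity) fun a => ?_
  refine ContinuousLinearMap.opNorm_le_bound _ (by positivity) fun y => ?_
  rw [pre_apply]
  calc ‖ζ (B a y)‖ ≤ ‖ζ‖ * ‖B a y‖ := ζ.le_opNorm _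
    _ ≤ ‖ζ‖ * (‖B‖ * ‖a‖ * ‖y‖) := mul_le_mul_of_nonneg_left (B.le_opNorm₂ a y) (norm_nonneg _)
    _ = ‖B‖ * ‖ζ‖ * ‖a‖ * ‖y‖ := by ring

variable [CompleteSpace Z]

/-- The inclusion of the tensor product in the dual. -/
noncomputable def valL (A : Type w) (Y : Type u) [NormedAddCommGroup A] [NormedSpace ℂ A]
    [NormedAddCommGroup Y] [NormedSpace ℂ Y] : PT A Y →L[ℂ] ((A →L[ℂ] Y →L[ℂ] ℂ) →L[ℂ] ℂ) :=
  (PTs A Y).subtypeL

theorem valL_tau (a : A) (y : Y) : valL A Y (tau A Y a y) = evL A Y a y := rfl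

theorem norm_valL (u : PT A Y) : ‖valL A Y u‖ = ‖u‖ := rfl

/-- The map to the bidual. -/
noncomputable def Phi (B : A →L[ℂ] Y →L[ℂ] Z) : PT A Y →L[ℂ] ((Z →L[ℂ] ℂ) →L[ℂ] ℂ) :=
  ((ContinuousLinearMap.compL ℂ (Z →L[ℂ] ℂ) (A →L[ℂ] Y →L[ℂ] ℂ) ℂ).flip (pre B)).comp (valL A Y)

omit [CompleteSpace Z] in
theorem Phi_apply (B : A →L[ℂ] Y →L[ℂ] Z) (u : PT A Y) : Phi B u = (valL A Y u).comp (pre B) := rfl

omit [CompleteSpace Z] in
theorem norm_Phi_le (B : A →L[ℂ] Y →L[ℂ] Z) (u : PT A Y) : ‖Phi B u‖ ≤ ‖B‖ * ‖u‖ := by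
  rw [Phi_apply, ← norm_valL u, mul_comm]
  exact (ContinuousLinearMap.opNorm_comp_le _ _).trans
    (mul_le_mul_of_nonneg_left (norm_pre_le B) (norm_nonneg _))

theorem exists_lift (B : A →L[ℂ] Y →L[ℂ] Z) (u : PT A Y) :
    ∃ z : Z, NormedSpace.inclusionInDoubleDualLi (E := Z) ℂ z = Phi B u := by
  have hclosed : IsClosed (Set.range (NormedSpace.inclusionInDoubleDualLi (E := Z) ℂ)) :=
    (NormedSpace.inclusionInDoubleDualLi (E := Z) ℂ).isometry.isClosedEmbedding.isClosed_range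
  exact PT.induction (p := fun u => Phi B u ∈ Set.range (NormedSpace.inclusionInDoubleDualLi (E := Z) ℂ))
    (hclosed.preimage (Phi B).continuous) ⟨0, by rw [map_zero, map_zero]⟩
    (by
      rintro u v ⟨a, ha⟩ ⟨b, hb⟩
      exact ⟨a + b, by rw [map_add, map_add, ha, hb]⟩)
    (by
      intro a y
      exact ⟨B a y, by ext ζ; rw [Phi_apply, valL_tau]; rfl⟩) u

/-- The value of the linearisation. -/
noncomputable def liftFun (B : A →L[ℂ] Y →L[ℂ] Z) (u : PT A Y) : Z := (exists_lift B u).choose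

theorem liftFun_spec (B : A →L[ℂ] Y →L[ℂ] Z) (u : PT A Y) :
    NormedSpace.inclusionInDoubleDualLi (E := Z) ℂ (liftFun B u) = Phi B u :=
  (exists_lift B u).choose_spec

/-- The linearisation of a bounded bilinear map. -/
noncomputable def lift (B : A →L[ℂ] Y →L[ℂ] Z) : PT A Y →L[ℂ] Z :=
  LinearMap.mkContinuous
    { toFun := liftFun B
      map_add' := fun u v => by
        apply (NormedSpace.inclusionInDoubleDualLi (E := Z) ℂ).injective
        rw [liftFun_spec, (NormedSpace.inclusionInDoubleDualLi (E := Z) ℂ).map_add,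
          liftFun_spec, liftFun_spec, (Phi B).map_add]
      map_smul' := fun c u => by
        apply (NormedSpace.inclusionInDoubleDualLi (E := Z) ℂ).injective
        rw [liftFun_spec, (NormedSpace.inclusionInDoubleDualLi (E := Z) ℂ).map_smul,
          liftFun_spec, (Phi B).map_smul]
        rfl }
    ‖B‖
    (fun u => by
      have h1 := (NormedSpace.inclusionInDoubleDualLi (E := Z) ℂ).norm_map (liftFun B u)
      rw [liftFun_spec] at h1
      show ‖liftFun B u‖ ≤ _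
      rw [← h1]
      exact norm_Phi_le B u)

theorem norm_lift_le (B : A →L[ℂ] Y →L[ℂ] Z) : ‖lift B‖ ≤ ‖B‖ :=
  LinearMap.mkContinuous_norm_le _ (norm_nonneg _) _

@[simp] theorem lift_tau (B : A →L[ℂ] Y →L[ℂ] Z) (a : A) (y : Y) : lift B (tau A Y a y) = B a y := by
  apply (NormedSpace.inclusionInDoubleDualLi (E := Z) ℂ).injective
  refine (liftFun_spec B (tau A Y a y)).trans ?_
  ext ζ
  rw [Phi_apply, valL_tau]
  rfl

theorem norm_lift_le' (B : A →L[ℂ] Y →L[ℂ] Z) {K : ℝ} (hK : 0 ≤ K)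
    (h : ∀ a y, ‖B a y‖ ≤ K * ‖a‖ * ‖y‖) : ‖lift B‖ ≤ K :=
  (norm_lift_le B).trans (B.opNorm_le_bound₂ hK h)

end lift

/-- Convergence on a dense set of a bounded family. -/
theorem closed_tendsto {E : Type v} {F : Type w} [NormedAddCommGroup E] [NormedSpace ℂ E]
    [NormedAddCommGroup F] [NormedSpace ℂ F] (T : ℕ → E →L[ℂ] F) (K : ℝ) (hK : ∀ n, ‖T n‖ ≤ K) :
    IsClosed {u | Tendsto (fun n => T n u) atTop (𝓝 0)} := by
  have hK0 : 0 ≤ K := (norm_nonneg _).trans (hK 0)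
  refine isClosed_of_closure_subset fun u hu => ?_
  show Tendsto (fun n => T n u) atTop (𝓝 0)
  rw [Metric.tendsto_atTop]
  intro ε hε
  obtain ⟨v, hv, hvu⟩ := Metric.mem_closure_iff.1 hu (ε / (2 * (K + 1))) (by positivity)
  obtain ⟨N, hN⟩ := (Metric.tendsto_atTop.1 hv) (ε / 2) (by positivity)
  refine ⟨N, fun n hn => ?_⟩
  have h1 := hN n hn
  rw [dist_zero_right] at h1 ⊢
  have h2 : T n u = T n v + T n (u - v) := by rw [← map_add]; congr 1; abel
  rw [h2]
  refine (norm_add_le _ _).trans_lt ?_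
  have h3 : ‖T n (u - v)‖ ≤ K * (ε / (2 * (K + 1))) := by
    refine ((T n).le_opNorm _).trans (mul_le_mul (hK n) ?_ (norm_nonneg _) hK0)
    rw [← dist_eq_norm]; exact hvu.le
  have h4 : K * (ε / (2 * (K + 1))) ≤ ε / 2 := by
    rw [← sub_nonneg]
    have : ε / 2 - K * (ε / (2 * (K + 1))) = ε / (2 * (K + 1)) := by field_simp; ring
    rw [this]; positivity
  linarith

theorem PT.tendsto {Z : Type v} [NormedAddCommGroup Z] [NormedSpace ℂ Z] (T : ℕ → PT A Y →L[ℂ] Z)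
    (K : ℝ) (hK : ∀ n, ‖T n‖ ≤ K) (h : ∀ a y, Tendsto (fun n => T n (tau A Y a y)) atTop (𝓝 0))
    (u : PT A Y) : Tendsto (fun n => T n u) atTop (𝓝 0) :=
  PT.induction (p := fun u => Tendsto (fun n => T n u) atTop (𝓝 0)) (closed_tendsto T K hK)
    (by simp) (fun u v hu hv => by simpa using hu.add hv) h u

end

end H601H
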